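import Pool.Agent.H99.RM.Nfa
import Pool.Agent.H99.RM.Nfc

/-! ROW COE (H48.HC): reduction of the middle coefficient modulo `p`.

Setting: finite family of number fields `F j`, `L j = X^(k j) * U j + C p * V j`, `(U j).coeff 0 = u j`, and
`P.map (ℤ → ℂ) = ∏_j ∏_σ (L j)^σ`, `g = ∑_j k j * #(F j →+* ℂ)`.
PROOF of `coeff_congr` (compare `nfc_coeff` in Pool/Agent/H99/RM/Nfc.lean).  Let `I := integralClosure ℤ ℂ`.  LEMMA (induction over a finset): if `l_i = X^(k_i) u_i + C p * v_i` in `I[X]`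
then `∏_i l_i = X^(∑ k_i) ∏ u_i + C p * w` for some `w : I[X]`.  The embedding `σ` restricted to `𝓞 F` has values in `I` (`nfc_isInt`, `RingHom.codRestrict`).
Coefficient of `X^g` of the product over all pairs `(j, σ)` (`Finset.prod_sigma'`, or first over `σ`, then over `j`): `P.coeff g = ∏_{j,σ} σ(u j) + p y = ∏_j norm(u j) + p y` with
`y : ℂ` integral (`nfc_norm`).  `y = (P.coeff g - ∏ norm(u j))/p` is rational and integral over `ℤ`, hence an integer (`IsIntegrallyClosed`, see Nfc).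
PROOF of `exists_dvd_coeff`: if `p ∣ P.coeff g` then `p ∣ ∏_j norm (u j)`, so `p ∣ norm (u j)` for some `j`, and `p ∣ u j` by `nfa_inert` (`k = 0`). -/

set_option autoImplicit false

open Polynomial NumberField Pool.Agent.H99.RM

namespace Pool.Agent.H48.HC

/-- The restriction of an embedding to the rings of integers. -/
private noncomputable def coe_emb {F : Type} [Field F] [NumberField F] (σ : F →+* ℂ) :
    𝓞 F →+* integralClosure ℤ ℂ :=
  RingHom.codRestrict (σ.comp (algebraMap (𝓞 F) F)) (integralClosure ℤ ℂ)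
    (fun a => nfc_isInt a σ)

private theorem coe_emb_apply {F : Type} [Field F] [NumberField F] (σ : F →+* ℂ) (a : 𝓞 F) :
    algebraMap (integralClosure ℤ ℂ) ℂ (coe_emb σ a) = σ (a : F) := rfl

private theorem coe_emb_comp {F : Type} [Field F] [NumberField F] (σ : F →+* ℂ) :
    (algebraMap (integralClosure ℤ ℂ) ℂ).comp (coe_emb σ) = σ.comp (algebraMap (𝓞 F) F) := rfl

private theorem coe_rat (p : ℕ) (hp : p ≠ 0) (A B : ℤ) (w : integralClosure ℤ ℂ)
    (h : ((A : ℂ) - (B : ℂ)) = (p : ℂ) * algebraMap (integralClosure ℤ ℂ) ℂ w) :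
    (p : ℤ) ∣ A - B := by
  have hpC : (p : ℂ) ≠ 0 := by exact_mod_cast hp
  have hpQ : (p : ℚ) ≠ 0 := by exact_mod_cast hp
  have h5 : algebraMap ℚ ℂ (((A - B : ℤ) : ℚ) / p) =
      algebraMap (integralClosure ℤ ℂ) ℂ w := by
    rw [map_div₀, map_natCast, map_intCast, div_eq_iff hpC, mul_comm, ← h]
    push_cast
    ring
  have h6 : IsIntegral ℤ (((A - B : ℤ) : ℚ) / p) := by
    rw [← isIntegral_algebraMap_iff (algebraMap ℚ ℂ).injective, h5]
    exact w.2
  obtain ⟨n, hn⟩ := IsIntegrallyClosed.isIntegral_iff.1 h6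
  refine ⟨n, ?_⟩
  have h7 : ((n : ℤ) : ℚ) = ((A - B : ℤ) : ℚ) / p := hn
  rw [eq_div_iff hpQ] at h7
  have h8 : ((n * p : ℤ) : ℚ) = ((A - B : ℤ) : ℚ) := by
    rw [← h7]
    push_cast
    ring
  have h9 : (n * p : ℤ) = A - B := by exact_mod_cast h8
  rw [← h9, mul_comm]

theorem coeff_congr {p : ℕ} (hp : p.Prime) {ι : Type} [Fintype ι] (F : ι → Type) [∀ j, Field (F j)] [∀ j, NumberField (F j)]
    (k : ι → ℕ) (L U V : ∀ j, (𝓞 (F j))[X]) (u : ∀ j, 𝓞 (F j))
    (hL : ∀ j, L j = X ^ (k j) * U j + C (p : 𝓞 (F j)) * V j) (hU : ∀ j, (U j).coeff 0 = u j) (P : ℤ[X]) (g : ℕ)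
    (hg : g = ∑ j, k j * Fintype.card (F j →+* ℂ))
    (hP : P.map (Int.castRingHom ℂ) =
      ∏ j, ∏ σ : F j →+* ℂ, (L j).map (σ.comp (algebraMap (𝓞 (F j)) (F j)))) :
    (p : ℤ) ∣ P.coeff g - ∏ j, Algebra.norm ℤ (u j) := by
  classical
  obtain ⟨pI, hpI⟩ : ∃ x : integralClosure ℤ ℂ, x = (p : integralClosure ℤ ℂ) := ⟨_, rfl⟩
  have e3 : algebraMap (integralClosure ℤ ℂ) ℂ pI = (p : ℂ) := by rw [hpI, map_natCast]
  have hdvd : C pI ∣ ∏ j, ∏ σ : F j →+* ℂ, (L j).map (coe_emb σ) -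
      ∏ j, ∏ σ : F j →+* ℂ, (X ^ (k j) * (U j).map (coe_emb σ)) := by
    rw [← Ideal.mem_span_singleton, ← Ideal.Quotient.eq, map_prod, map_prod]
    refine Finset.prod_congr rfl fun j _ => ?_
    rw [map_prod, map_prod]
    refine Finset.prod_congr rfl fun σ _ => ?_
    rw [Ideal.Quotient.eq, Ideal.mem_span_singleton]
    refine ⟨(V j).map (coe_emb σ), ?_⟩
    rw [hL j, hpI]
    rw [Polynomial.map_add, Polynomial.map_mul, Polynomial.map_mul, Polynomial.map_pow,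
      Polynomial.map_X, Polynomial.map_C, map_natCast, add_sub_cancel_left]
  obtain ⟨W, hW⟩ := hdvd
  have hprod : ∏ j, ∏ σ : F j →+* ℂ, (X ^ (k j) * (U j).map (coe_emb σ)) =
      X ^ g * ∏ j, ∏ σ : F j →+* ℂ, (U j).map (coe_emb σ) := by
    rw [hg, ← Finset.prod_pow_eq_pow_sum, ← Finset.prod_mul_distrib]
    refine Finset.prod_congr rfl fun j _ => ?_
    rw [Finset.prod_mul_distrib, Finset.prod_const, Finset.card_univ, pow_mul]
  rw [hprod] at hW
  have hco := congrArg (fun f : (integralClosure ℤ ℂ)[X] =>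
    algebraMap (integralClosure ℤ ℂ) ℂ (f.coeff g)) hW
  have hc : (X ^ g * ∏ j, ∏ σ : F j →+* ℂ, (U j).map (coe_emb σ)).coeff g =
      ∏ j, ∏ σ : F j →+* ℂ, coe_emb σ (u j) := by
    have h := Polynomial.coeff_X_pow_mul
      (∏ j, ∏ σ : F j →+* ℂ, (U j).map (coe_emb σ)) g 0
    rw [zero_add] at h
    rw [h, Polynomial.coeff_zero_prod]
    refine Finset.prod_congr rfl fun j _ => ?_
    rw [Polynomial.coeff_zero_prod]
    refine Finset.prod_congr rfl fun σ _ => ?_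
    rw [Polynomial.coeff_map, hU j]
  simp only [coeff_sub, map_sub, coeff_C_mul, map_mul, hc, map_prod, e3, coe_emb_apply] at hco
  have h3 : algebraMap (integralClosure ℤ ℂ) ℂ ((∏ j, ∏ σ : F j →+* ℂ,
      (L j).map (coe_emb σ)).coeff g) = (P.coeff g : ℂ) := by
    rw [← Polynomial.coeff_map, Polynomial.map_prod]
    simp only [Polynomial.map_prod, Polynomial.map_map, coe_emb_comp]
    rw [← hP, Polynomial.coeff_map]
    rfl
  rw [h3] at hco
  refine coe_rat p hp.ne_zero _ _ (W.coeff g) ?_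
  rw [← hco]
  congr 1
  push_cast
  refine Finset.prod_congr rfl fun j _ => ?_
  exact (nfc_norm (u j)).symm

theorem exists_dvd_coeff {p : ℕ} (hp : p.Prime) {ι : Type} [Fintype ι] (F : ι → Type) [∀ j, Field (F j)] [∀ j, NumberField (F j)]
    (hprime : ∀ j, Prime ((p : ℕ) : 𝓞 (F j)))
    (k : ι → ℕ) (L U V : ∀ j, (𝓞 (F j))[X]) (u : ∀ j, 𝓞 (F j))
    (hL : ∀ j, L j = X ^ (k j) * U j + C (p : 𝓞 (F j)) * V j) (hU : ∀ j, (U j).coeff 0 = u j) (P : ℤ[X]) (g : ℕ)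
    (hg : g = ∑ j, k j * Fintype.card (F j →+* ℂ))
    (hP : P.map (Int.castRingHom ℂ) =
      ∏ j, ∏ σ : F j →+* ℂ, (L j).map (σ.comp (algebraMap (𝓞 (F j)) (F j))))
    (hdvd : (p : ℤ) ∣ P.coeff g) : ∃ j, (p : 𝓞 (F j)) ∣ u j := by
  have h := coeff_congr hp F k L U V u hL hU P g hg hP
  have h1 : (p : ℤ) ∣ ∏ j, Algebra.norm ℤ (u j) := by
    have := dvd_sub hdvd h
    simpa using this
  obtain ⟨j, _, hj⟩ := (Nat.prime_iff_prime_int.mp hp).exists_mem_finset_dvd h1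
  exact ⟨j, nfa_zero p (hprime j) (u j) hj⟩

end Pool.Agent.H48.HC
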