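import Pool.Agent.H48.HC.Def
import Pool.Agent.H99.RM.Nfr

/-! ROW RKT (H48.HC): the two local cases over one totally real field `F`.

Reusable from Pool/Agent/H99/RM/Nfr.lean: `nfr_re`, `nfr_coe` (real embedding), `nfr_norm`, `nfr_unit` (all conjugates in `[0,1]` implies `0` or `1`), `rbd_main` (its `frobPoly` has
`-a` in place of `a`), `nfc_norm`.
PROOF of `int_dvd_of_dvd`: `(n : ℚ)/m` is an algebraic integer, so an integer.
PROOF of `rank_two_case` (`p % 4 = 1`, so `p ≥ 5`): suppose `p ∣ a`, `a = p a'`.  For every `σ`: `σ a = y` real.  Let `α` be a complex root of `X^2 + y X + p`; `β = -y - α` is the other one,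
`α β = p`, `‖α‖^2, ‖β‖^2 ≤ p`, so `‖α‖ = ‖β‖ = √p` and `|y| = ‖α + β‖ ≤ 2 √p`, `y^2 ≤ 4p`, so `‖σ a'‖^2 = y^2/p^2 ≤ 4/p < 1`.  `|norm a'| = ∏ ‖σ a'‖ < 1`, so `norm a' = 0`, `a' = 0`, `a = 0`.
`4 ∣ L(1) = 1 + a + p = 1 + p` in `𝓞 F`, so `4 ∣ 1 + p` in `ℤ`, contradiction to `p % 4 = 1`.
PROOF of `rank_four_case` (`p % 8 = 1`, `p` prime in `𝓞 F`): suppose `p ∣ b`, `b = p β`.  For every `σ`: `σ a = y`, `σ b = z` real, all roots of
`X^4 + y X^3 + z X^2 + p y X + p^2` are in the disc `‖α‖ ≤ √p`; `rbd_main` (with `A = -y`, `B = z`): `-2p ≤ z ≤ 6p`, (`z = 6p → y^2 = 16p`), (`z = -2p → y = 0`).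
`16 ∣ L(1) = 1 + a + b + pa + p^2` and `16 ∣ L(-1) = 1 - a + b - pa + p^2`; the sum: `16 ∣ 2 (1 + b + p^2)`, `8 ∣ 1 + b + p^2`; `p = 8 k + 1`: `8 ∣ 1 + pβ + p^2`, so
`8 ∣ β + 2`; `β + 2 = 8 γ`, `γ : 𝓞 F`, all `σ γ ∈ [0, 1]` real: `nfr_unit`: `γ = 0` or `γ = 1`.
`γ = 1`: `b = 6p`, so `(σ a)^2 = 16 p` for all `σ`, `a^2 = 16 p` in `𝓞 F` (σ injective); `p ∣ a`, `p^2 ∣ 16 p`, `p ∣ 16`, contradiction (`p` odd prime element, see the end of `nfr_main`).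
`γ = 0`: `b = -2p`, `σ a = 0`, `a = 0`, and `L(-1) = 1 - 2p + p^2 = (1-p)^2 = 64 k^2 = 16 * (2 * (2 k^2))`.  This is the conclusion. -/

set_option autoImplicit false

open Polynomial NumberField Pool.Agent.H99.RM

namespace Pool.Agent.H48.HC

variable {F : Type} [Field F] [NumberField F]

theorem int_dvd_of_dvd {m n : ℤ} (hm : m ≠ 0) (h : (m : 𝓞 F) ∣ (n : 𝓞 F)) : m ∣ n := by
  have _ := hm
  obtain ⟨c, hc⟩ := h
  have h1 : Algebra.norm ℤ ((n : ℤ) : 𝓞 F) = n ^ Module.finrank ℤ (𝓞 F) := by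
    have := Algebra.norm_algebraMap (S := 𝓞 F) n
    simpa using this
  have h2 : Algebra.norm ℤ ((m : ℤ) : 𝓞 F) = m ^ Module.finrank ℤ (𝓞 F) := by
    have := Algebra.norm_algebraMap (S := 𝓞 F) m
    simpa using this
  have h3 : n ^ Module.finrank ℤ (𝓞 F) = m ^ Module.finrank ℤ (𝓞 F) * Algebra.norm ℤ c := by
    rw [← h1, hc, map_mul, h2]
  have h4 : Module.finrank ℤ (𝓞 F) ≠ 0 := (Module.finrank_pos).ne'
  exact (Int.pow_dvd_pow_iff h4).1 ⟨_, h3⟩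

theorem RKT_re (σ : F →+* ℂ) [IsTotallyReal F] (x : 𝓞 F) :
    (σ.comp (algebraMap (𝓞 F) F)) x = ((nfr_re σ (x : F) : ℝ) : ℂ) := by
  rw [nfr_coe]
  rfl

theorem rank_two_case [IsTotallyReal F] {p : ℕ} (hp : p.Prime) (h4 : p % 4 = 1) {a : 𝓞 F} {L : (𝓞 F)[X]}
    (hL : L = X ^ 2 + C a * X + C (p : 𝓞 F))
    (hroot : ∀ σ : F →+* ℂ, ∀ α ∈ (L.map (σ.comp (algebraMap (𝓞 F) F))).roots, ‖α‖ ^ 2 ≤ (p : ℝ))
    (h1 : (4 : 𝓞 F) ∣ L.eval 1) : ¬ (p : 𝓞 F) ∣ a := by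
  rintro ⟨a', ha'⟩
  have hp1 := hp.one_lt
  have hp5 : 5 ≤ p := by omega
  have hp5R : (5 : ℝ) ≤ (p : ℝ) := by exact_mod_cast hp5
  have hy : ∀ σ : F →+* ℂ, (nfr_re σ (a : F)) ^ 2 ≤ 4 * (p : ℝ) := by
    intro σ
    have hmap : L.map (σ.comp (algebraMap (𝓞 F) F)) =
        X ^ 2 + C ((nfr_re σ (a : F) : ℝ) : ℂ) * X + C (p : ℂ) := by
      rw [hL]
      simp only [Polynomial.map_add, Polynomial.map_mul, Polynomial.map_pow, Polynomial.map_X,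
        Polynomial.map_C, RKT_re, map_natCast, Polynomial.map_natCast]
    obtain ⟨y, hydef⟩ : ∃ y : ℝ, y = nfr_re σ (a : F) := ⟨_, rfl⟩
    rw [← hydef] at hmap ⊢
    have hmon : (X ^ 2 + C ((y : ℝ) : ℂ) * X + C (p : ℂ)).Monic := by
      monicity!
    have hne := hmon.ne_zero
    have hmem : ∀ α : ℂ, α ^ 2 + (y : ℂ) * α + (p : ℂ) = 0 → ‖α‖ ^ 2 ≤ (p : ℝ) := by
      intro α hα
      refine hroot σ α ?_
      rw [hmap, mem_roots hne]
      simpa [IsRoot] using hα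
    obtain ⟨s, hs⟩ := IsAlgClosed.exists_pow_nat_eq ((y : ℂ) ^ 2 - 4 * (p : ℂ)) (n := 2)
      (by norm_num)
    have k1 := hmem ((-(y : ℂ) + s) / 2) (by linear_combination (1 / 4 : ℂ) * hs)
    have k2 := hmem ((-(y : ℂ) - s) / 2) (by linear_combination (1 / 4 : ℂ) * hs)
    have k3 : ‖(y : ℂ)‖ ≤ ‖(-(y : ℂ) + s) / 2‖ + ‖(-(y : ℂ) - s) / 2‖ := by
      have e : ‖(y : ℂ)‖ = ‖(-(y : ℂ) + s) / 2 + (-(y : ℂ) - s) / 2‖ := by
        rw [← norm_neg (y : ℂ)]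
        congr 1
        ring
      rw [e]
      exact norm_add_le _ _
    rw [Complex.norm_real, Real.norm_eq_abs] at k3
    have k4 := abs_nonneg y
    have k5 : |y| ^ 2 ≤ 4 * (p : ℝ) := by
      nlinarith [norm_nonneg ((-(y : ℂ) + s) / 2), norm_nonneg ((-(y : ℂ) - s) / 2),
        sq_nonneg (‖(-(y : ℂ) + s) / 2‖ - ‖(-(y : ℂ) - s) / 2‖)]
    rwa [sq_abs] at k5
  have haF : (a : F) = (p : F) * (a' : F) := by
    have := congrArg (algebraMap (𝓞 F) F) ha'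
    rwa [map_mul, map_natCast] at this
  have hlt : ∀ σ : F →+* ℂ, (nfr_re σ (a' : F)) ^ 2 < 1 := by
    intro σ
    have e := hy σ
    rw [haF, map_mul, map_natCast] at e
    by_contra hc
    push Not at hc
    have : (p : ℝ) ^ 2 ≤ ((p : ℝ) * nfr_re σ (a' : F)) ^ 2 := by
      rw [mul_pow]
      nlinarith [sq_nonneg (p : ℝ)]
    nlinarith
  have h01 : ∀ σ : F →+* ℂ, 0 ≤ nfr_re σ ((a' ^ 2 : 𝓞 F) : F) ∧
      nfr_re σ ((a' ^ 2 : 𝓞 F) : F) ≤ 1 := by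
    intro σ
    have e : nfr_re σ ((a' ^ 2 : 𝓞 F) : F) = (nfr_re σ (a' : F)) ^ 2 := by
      rw [← map_pow]
      congr 1
    rw [e]
    exact ⟨sq_nonneg _, (hlt σ).le⟩
  have ha0 : a' = 0 := by
    rcases nfr_unit (a' ^ 2) h01 with h | h
    · exact pow_eq_zero_iff (two_ne_zero) |>.1 h
    · exfalso
      obtain ⟨σ₀⟩ : Nonempty (F →+* ℂ) := inferInstance
      have e : nfr_re σ₀ ((a' ^ 2 : 𝓞 F) : F) = (nfr_re σ₀ (a' : F)) ^ 2 := by
        rw [← map_pow]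
        congr 1
      have e2 := hlt σ₀
      rw [← e, h] at e2
      have e3 : nfr_re σ₀ ((1 : 𝓞 F) : F) = 1 := by
        have : ((1 : 𝓞 F) : F) = 1 := map_one (algebraMap (𝓞 F) F)
        rw [this, map_one]
      rw [e3] at e2
      exact lt_irrefl _ e2
  have ha : a = 0 := by rw [ha', ha0, mul_zero]
  have hev : L.eval 1 = (((1 + p : ℤ)) : 𝓞 F) := by
    rw [hL, ha]
    simp
  rw [hev] at h1
  have h5 : ((4 : ℤ) : 𝓞 F) ∣ (((1 + p : ℤ)) : 𝓞 F) := by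
    have : ((4 : ℤ) : 𝓞 F) = 4 := by norm_num
    rw [this]
    exact h1
  have h6 := int_dvd_of_dvd (by norm_num) h5
  omega

theorem rank_four_case [IsTotallyReal F] {p : ℕ} (hp : p.Prime) (h8 : p % 8 = 1) (hprime : Prime ((p : ℕ) : 𝓞 F))
    {a b : 𝓞 F} {L : (𝓞 F)[X]}
    (hL : L = X ^ 4 + C a * X ^ 3 + C b * X ^ 2 + C ((p : 𝓞 F) * a) * X + C ((p : 𝓞 F) ^ 2))
    (hroot : ∀ σ : F →+* ℂ, ∀ α ∈ (L.map (σ.comp (algebraMap (𝓞 F) F))).roots, ‖α‖ ^ 2 ≤ (p : ℝ))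
    (h1 : (16 : 𝓞 F) ∣ L.eval 1) (h2 : (16 : 𝓞 F) ∣ L.eval (-1)) (hb : (p : 𝓞 F) ∣ b) :
    ∃ v : 𝓞 F, L.eval (-1) = 16 * (2 * v) := by
  obtain ⟨β, hβ⟩ := hb
  have hp0 : 0 < p := hp.pos
  have hpR : (0 : ℝ) < (p : ℝ) := by exact_mod_cast hp0
  have hroot' : ∀ σ : F →+* ℂ, ∀ z : ℂ,
      (frobPoly p ((-(nfr_re σ (a : F)) : ℝ) : ℂ) ((nfr_re σ (b : F) : ℝ) : ℂ)).IsRoot z →
        ‖z‖ ≤ √(p : ℝ) := by
    intro σ z hz
    have hmap : L.map (σ.comp (algebraMap (𝓞 F) F)) =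
        frobPoly p ((-(nfr_re σ (a : F)) : ℝ) : ℂ) ((nfr_re σ (b : F) : ℝ) : ℂ) := by
      rw [hL]
      unfold frobPoly
      simp only [Polynomial.map_add, Polynomial.map_mul, Polynomial.map_pow, Polynomial.map_X,
        Polynomial.map_C, map_mul, map_pow, map_natCast, Polynomial.map_natCast, RKT_re,
        Complex.ofReal_neg, map_neg]
      ring
    have hmon : (L.map (σ.comp (algebraMap (𝓞 F) F))).Monic := by
      refine Monic.map _ ?_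
      rw [hL]
      monicity!
    have hmem : z ∈ (L.map (σ.comp (algebraMap (𝓞 F) F))).roots := by
      rw [mem_roots hmon.ne_zero, hmap]
      exact hz
    exact Real.le_sqrt_of_sq_le (hroot σ z hmem)
  have hbd : ∀ σ : F →+* ℂ, _ := fun σ => rbd_main p hp0 (-(nfr_re σ (a : F)))
    (nfr_re σ (b : F)) (hroot' σ)
  have he1 : L.eval 1 = 1 + a + b + (p : 𝓞 F) * a + (p : 𝓞 F) ^ 2 := by
    rw [hL]
    simp
  have he2 : L.eval (-1) = 1 - a + b - (p : 𝓞 F) * a + (p : 𝓞 F) ^ 2 := by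
    rw [hL]
    simp
    ring
  obtain ⟨q, hq⟩ : ∃ q : ℕ, p = 8 * q + 1 := ⟨p / 8, by omega⟩
  have hpF : (p : 𝓞 F) = 8 * (q : 𝓞 F) + 1 := by
    rw [hq]
    push_cast
    ring
  obtain ⟨w₂, hw₂⟩ := h1
  obtain ⟨w₁, hw₁⟩ := h2
  rw [he1] at hw₂
  rw [he2] at hw₁
  have h2ne : (2 : 𝓞 F) ≠ 0 := two_ne_zero
  have hw : 1 + b + (p : 𝓞 F) ^ 2 = 8 * (w₁ + w₂) := by
    apply mul_left_cancel₀ h2ne
    linear_combination hw₁ + hw₂
  set γ : 𝓞 F := w₁ + w₂ - (q : 𝓞 F) * β - 8 * (q : 𝓞 F) ^ 2 - 2 * (q : 𝓞 F) with hγ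
  have h3 : β + 2 = 8 * γ := by
    rw [hγ]
    rw [hβ, hpF] at hw
    linear_combination hw
  have h3F : (β : F) + 2 = 8 * (γ : F) := by
    have := congrArg (algebraMap (𝓞 F) F) h3
    rwa [map_add, map_mul, map_ofNat, map_ofNat] at this
  have hβF : (b : F) = (p : F) * (β : F) := by
    have := congrArg (algebraMap (𝓞 F) F) hβ
    rwa [map_mul, map_natCast] at this
  have hγ01 : ∀ σ : F →+* ℂ, 0 ≤ nfr_re σ (γ : F) ∧ nfr_re σ (γ : F) ≤ 1 := by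
    intro σ
    have e1 := congrArg (nfr_re σ) h3F
    have e2 := congrArg (nfr_re σ) hβF
    simp only [map_add, map_mul, map_ofNat, map_natCast] at e1 e2
    obtain ⟨b1, b2, -, -⟩ := hbd σ
    rw [e2] at b1 b2
    have c1 : -2 ≤ nfr_re σ (β : F) := by
      by_contra hc
      push Not at hc
      nlinarith
    have c2 : nfr_re σ (β : F) ≤ 6 := by
      by_contra hc
      push Not at hc
      nlinarith
    constructor <;> linarith
  obtain ⟨σ₀⟩ : Nonempty (F →+* ℂ) := inferInstance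
  rcases nfr_unit γ hγ01 with h | h
  · have hβ2 : β = -2 := by
      rw [h, mul_zero] at h3
      exact eq_neg_of_add_eq_zero_left h3
    have hb : b = -2 * (p : 𝓞 F) := by rw [hβ, hβ2]; ring
    have ha : a = 0 := by
      have h4 : -nfr_re σ₀ (a : F) = 0 := by
        refine (hbd σ₀).2.2.2 ?_
        have e : (β : F) = -2 := by
          rw [hβ2]
          show algebraMap (𝓞 F) F (-2) = -2
          rw [map_neg, map_ofNat]
        rw [hβF, e, map_mul, map_natCast, map_neg, map_ofNat]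
        ring
      have h5 : (a : F) = 0 := by
        apply (nfr_re σ₀).injective
        rw [map_zero]
        linarith
      exact_mod_cast h5
    refine ⟨2 * (q : 𝓞 F) ^ 2, ?_⟩
    rw [he2, ha, hb, hpF]
    ring
  · exfalso
    have hβ6 : β = 6 := by
      rw [h, mul_one] at h3
      linear_combination h3
    have ha : a ^ 2 = 16 * (p : 𝓞 F) := by
      have h4 : (-nfr_re σ₀ (a : F)) ^ 2 = 16 * (p : ℝ) := by
        refine (hbd σ₀).2.2.1 ?_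
        have e : (β : F) = 6 := by
          rw [hβ6]
          exact map_ofNat (algebraMap (𝓞 F) F) 6
        rw [hβF, e, map_mul, map_natCast, map_ofNat]
        ring
      rw [neg_sq] at h4
      have h5 : (a : F) ^ 2 = 16 * (p : F) := by
        apply (nfr_re σ₀).injective
        rw [map_pow, h4, map_mul, map_natCast, map_ofNat]
      apply RingOfIntegers.ext
      show algebraMap (𝓞 F) F (a ^ 2) = algebraMap (𝓞 F) F (16 * (p : 𝓞 F))
      rw [map_pow, map_mul, map_ofNat, map_natCast]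
      exact h5
    have h5 : ((p : ℕ) : 𝓞 F) ∣ a := hprime.dvd_of_dvd_pow (n := 2) ⟨16, by rw [ha]; ring⟩
    obtain ⟨c, hc⟩ := h5
    have h6 : (p : 𝓞 F) * c ^ 2 = 16 := by
      apply mul_left_cancel₀ hprime.ne_zero
      rw [hc] at ha
      linear_combination ha
    have h7 : ((p : ℕ) : 𝓞 F) ∣ 2 := by
      refine hprime.dvd_of_dvd_pow (n := 4) ⟨c ^ 2, ?_⟩
      rw [h6]
      norm_num
    obtain ⟨d, hd⟩ := h7
    have h8' : ((p : ℕ) : 𝓞 F) ∣ 1 := by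
      refine ⟨1 - d * (4 * (q : 𝓞 F)), ?_⟩
      have : (p : 𝓞 F) = 2 * (4 * (q : 𝓞 F)) + 1 := by rw [hpF]; ring
      linear_combination (-(4 * (q : 𝓞 F))) * hd - this
    exact hprime.not_isUnit (isUnit_of_dvd_one h8')

end Pool.Agent.H48.HC
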