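import Pool.Agent.H48.HC.HLF
import Pool.Agent.H48.HC.COE
import Pool.Agent.H48.HC.RKT

/-! ROW ABS (H48.HC): the abstract ordinarity criterion.

PROOF.  Put `k j := 1` if `RankTwo p (L j)` and `2` otherwise (then `RankFour`).  Each `L j` is monic of natDegree `2 k j`.  Comparing natDegrees in `hfac`:
`2g = ∑_j 2 k_j #(F_j →+* ℂ)` (`natDegree_prod_of_monic`), so `g = ∑_j k_j #(F_j →+* ℂ)`.
For `j, σ`: every root `α` of `(L j)^σ` is a root of `P.map` (the factor divides the product, `P.map ≠ 0`), so `‖α‖^2 ≤ p` (`hRH`) and `(α-1)/2` is integral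
(`half_integral`); `dvd_eval` (choose any `σ`, `F j` has an embedding): `2^(2 k_j) ∣ (L j)(±1)`.
Suppose `p ∣ P.coeff g`.  RankTwo: `L = X^1 * (X + C a) + C p * 1`, `u = a`.  RankFour: `L = X^2 * (X^2 + C a X + C b) + C p * (C a * X + C p)`, `u = b`.
`exists_dvd_coeff`: some `j0` with `p ∣ u j0`.  If `RankTwo`: contradiction to `rank_two_case`.  So `RankFour` and `rank_four_case`: `(L j0)(-1) = 16 * (2 v)`.
For all `j` write `(L j)(-1) = 2^(2 k_j) * w_j`, where `w_{j0} = 2 v` for `j0` (cancel `16`).  Evaluate `hfac` at `-1`: `P(-1) = ∏_j ∏_σ σ(2^(2k_j) w_j) =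
2^(∑_j 2 k_j #σ) ∏_j norm(w_j) = 2^(2g) ∏_j Algebra.norm ℤ (w_j)` (`nfc_norm`).  So `r = ∏_j norm (w_j)` and `norm (w_{j0}) = norm 2 * norm v` is even (`norm 2 = 2^[F:ℚ]`,
`Algebra.norm_algebraMap`, `finrank ≥ 1`; or `∏_σ σ(2 v) = 2^(#σ) norm v`), so `r` is even: contradiction with `Odd r`. -/

set_option autoImplicit false

open Polynomial NumberField Pool.Agent.H99.RM

namespace Pool.Agent.H48.HC

theorem ABS_data {R : Type} [CommRing R] [Nontrivial R] {p : ℕ} {L : R[X]} (h : RankTwo p L ∨ RankFour p L) :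
    ∃ (k : ℕ) (u : R) (U V : R[X]), L.Monic ∧ L.natDegree = 2 * k ∧ L = X ^ k * U + C (p : R) * V ∧
      U.coeff 0 = u ∧ ((k = 1 ∧ L = X ^ 2 + C u * X + C (p : R)) ∨ (k = 2 ∧ ∃ a : R,
        L = X ^ 4 + C a * X ^ 3 + C u * X ^ 2 + C ((p : R) * a) * X + C ((p : R) ^ 2))) := by
  rcases h with ⟨a, ha⟩ | ⟨a, b, hab⟩
  · have hd : (C a * X + C (p : R)).degree < ((2 : ℕ) : WithBot ℕ) := by
      refine lt_of_le_of_lt (degree_linear_le) ?_
      norm_num
    have hLe : L = X ^ 2 + (C a * X + C (p : R)) := by rw [ha]; ring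
    refine ⟨1, a, X + C a, 1, ?_, ?_, ?_, ?_, Or.inl ⟨rfl, ha⟩⟩
    · rw [hLe]
      exact monic_X_pow_add (by simpa using hd)
    · rw [hLe, natDegree_add_eq_left_of_degree_lt, natDegree_X_pow]
      rw [degree_X_pow]
      exact hd
    · rw [ha]
      ring
    · simp
  · have hd : (C a * X ^ 3 + C b * X ^ 2 + C ((p : R) * a) * X + C ((p : R) ^ 2)).degree <
        ((4 : ℕ) : WithBot ℕ) := by
      refine lt_of_le_of_lt (degree_cubic_le) ?_
      norm_num
    have hLe : L = X ^ 4 + (C a * X ^ 3 + C b * X ^ 2 + C ((p : R) * a) * X + C ((p : R) ^ 2)) := by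
      rw [hab]
      ring
    refine ⟨2, b, X ^ 2 + C a * X + C b, C a * X + C (p : R), ?_, ?_, ?_, ?_, Or.inr ⟨rfl, a, hab⟩⟩
    · rw [hLe]
      exact monic_X_pow_add (by simpa using hd)
    · rw [hLe, natDegree_add_eq_left_of_degree_lt, natDegree_X_pow]
      rw [degree_X_pow]
      exact hd
    · rw [hab, C_mul, C_pow]
      ring
    · simp

theorem ABS_eval {R S : Type} [CommRing R] [CommRing S] (φ : R →+* S) (p : R[X]) :
    (p.map φ).eval (-1) = φ (p.eval (-1)) := by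
  have h : (-1 : S) = φ (-1) := by rw [map_neg, map_one]
  rw [h, eval_map, eval₂_at_apply]

theorem ABS_norm {F : Type} [Field F] [NumberField F] (c : ℕ) (x : 𝓞 F) :
    ∏ σ : F →+* ℂ, σ (((c : 𝓞 F) * x : 𝓞 F) : F) =
      (c : ℂ) ^ (Fintype.card (F →+* ℂ)) * ((Algebra.norm ℤ x : ℤ) : ℂ) := by
  rw [← nfc_norm]
  push_cast
  simp only [map_mul, map_natCast]
  rw [Finset.prod_mul_distrib, Finset.prod_const, Finset.card_univ]

theorem ordinary_abstract {p : ℕ} (hp : p.Prime) (h8 : p % 8 = 1) {g : ℕ} {P : ℤ[X]} (hmon : P.Monic)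
    (hdeg : P.natDegree = 2 * g)
    (hRH : ∀ α ∈ (P.map (Int.castRingHom ℂ)).roots, ‖α‖ ^ 2 ≤ (p : ℝ))
    (hone : ∃ G : ℤ[X], P.comp (C 1 + C 2 * X) = C ((2 : ℤ) ^ (2 * g)) * G)
    (hneg : ∃ r : ℤ, Odd r ∧ P.eval (-1) = (2 : ℤ) ^ (2 * g) * r)
    {ι : Type} [Fintype ι] (F : ι → Type) [∀ j, Field (F j)] [∀ j, NumberField (F j)] [∀ j, IsTotallyReal (F j)]
    (hprime : ∀ j, Prime ((p : ℕ) : 𝓞 (F j))) (L : ∀ j, (𝓞 (F j))[X])
    (hL : ∀ j, RankTwo p (L j) ∨ RankFour p (L j))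
    (hfac : P.map (Int.castRingHom ℂ) =
      ∏ j, ∏ σ : F j →+* ℂ, (L j).map (σ.comp (algebraMap (𝓞 (F j)) (F j)))) :
    ¬ (p : ℤ) ∣ P.coeff g := by
  classical
  intro hdvd
  obtain ⟨G, hG⟩ := hone
  obtain ⟨r, hr, hPr⟩ := hneg
  have hdata := fun j => ABS_data (hL j)
  choose k u U V hmonL hdegL hLf hU hcase using hdata
  have hmonP : (P.map (Int.castRingHom ℂ)).Monic := hmon.map _
  have hg : g = ∑ j, k j * Fintype.card (F j →+* ℂ) := by
    have h1 := congrArg natDegree hfac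
    rw [hmon.natDegree_map, hdeg, natDegree_prod_of_monic _ _
      (fun j _ => monic_prod_of_monic _ _ (fun σ _ => (hmonL j).map _))] at h1
    have h2 : ∀ j, (∏ σ : F j →+* ℂ, (L j).map (σ.comp (algebraMap (𝓞 (F j)) (F j)))).natDegree =
        2 * (k j * Fintype.card (F j →+* ℂ)) := by
      intro j
      rw [natDegree_prod_of_monic _ _ (fun σ _ => (hmonL j).map _)]
      simp only [(hmonL j).natDegree_map, hdegL, Finset.sum_const, Finset.card_univ, smul_eq_mul]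
      ring
    rw [Finset.sum_congr rfl (fun j _ => h2 j), ← Finset.mul_sum] at h1
    omega
  have hroots : ∀ j (σ : F j →+* ℂ), ∀ α ∈ ((L j).map (σ.comp (algebraMap (𝓞 (F j)) (F j)))).roots,
      α ∈ (P.map (Int.castRingHom ℂ)).roots := by
    intro j σ α hα
    have hd : (L j).map (σ.comp (algebraMap (𝓞 (F j)) (F j))) ∣ P.map (Int.castRingHom ℂ) := by
      rw [hfac]
      exact (Finset.dvd_prod_of_mem (fun σ : F j →+* ℂ => (L j).map (σ.comp (algebraMap (𝓞 (F j)) (F j))))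
        (Finset.mem_univ σ)).trans (Finset.dvd_prod_of_mem
          (fun j => ∏ σ : F j →+* ℂ, (L j).map (σ.comp (algebraMap (𝓞 (F j)) (F j)))) (Finset.mem_univ j))
    exact Multiset.mem_of_le (roots.le_of_dvd hmonP.ne_zero hd) hα
  have hR : ∀ j (σ : F j →+* ℂ), ∀ α ∈ ((L j).map (σ.comp (algebraMap (𝓞 (F j)) (F j)))).roots,
      ‖α‖ ^ 2 ≤ (p : ℝ) := fun j σ α hα => hRH α (hroots j σ α hα)
  have hE : ∀ j, (2 : 𝓞 (F j)) ^ (2 * k j) ∣ (L j).eval 1 ∧ (2 : 𝓞 (F j)) ^ (2 * k j) ∣ (L j).eval (-1) := by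
    intro j
    obtain ⟨σ⟩ : Nonempty (F j →+* ℂ) := inferInstance
    have h1 := dvd_eval (L j) (hmonL j) σ (fun α hα => half_integral hmon hdeg hG (hroots j σ α hα))
    rw [hdegL] at h1
    exact h1
  obtain ⟨j0, hj0⟩ := exists_dvd_coeff hp F hprime k L U V u hLf hU P g hg hfac hdvd
  choose w hw using fun j => (hE j).2
  have hw0 : ∃ v, w j0 = 2 * v := by
    rcases hcase j0 with ⟨h1, h2⟩ | ⟨h1, a, h2⟩
    · exfalso
      have h3 := (hE j0).1
      rw [h1] at h3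
      norm_num at h3
      exact rank_two_case hp (by omega) h2 (hR j0) h3 hj0
    · have h3 := (hE j0).1
      have h4 := (hE j0).2
      rw [h1] at h3 h4
      norm_num at h3 h4
      obtain ⟨v, hv⟩ := rank_four_case hp h8 (hprime j0) h2 (hR j0) h3 h4 hj0
      refine ⟨v, ?_⟩
      have h5 := hw j0
      rw [hv, h1] at h5
      have h6 : (16 : 𝓞 (F j0)) ≠ 0 := by norm_num
      apply mul_left_cancel₀ h6
      rw [h5]
      norm_num
  have hev : ((P.eval (-1) : ℤ) : ℂ) = (2 : ℂ) ^ (2 * g) * ((∏ j, Algebra.norm ℤ (w j) : ℤ) : ℂ) := by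
    have h1 := congrArg (fun Q : ℂ[X] => Q.eval (-1)) hfac
    simp only [ABS_eval, eval_prod] at h1
    have h2 : ((P.eval (-1) : ℤ) : ℂ) = (Int.castRingHom ℂ) (P.eval (-1)) := rfl
    rw [h2, h1]
    have h3 : ∀ j, ∏ σ : F j →+* ℂ, (σ.comp (algebraMap (𝓞 (F j)) (F j))) ((L j).eval (-1)) =
        (2 : ℂ) ^ (2 * (k j * Fintype.card (F j →+* ℂ))) * ((Algebra.norm ℤ (w j) : ℤ) : ℂ) := by
      intro j
      have h4 : (L j).eval (-1) = ((2 ^ (2 * k j) : ℕ) : 𝓞 (F j)) * w j := by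
        rw [hw j]
        push_cast
        ring
      have h5 := ABS_norm (F := F j) (2 ^ (2 * k j)) (w j)
      rw [← h4] at h5
      refine Eq.trans ?_ (h5.trans ?_)
      · rfl
      · push_cast
        rw [← pow_mul, mul_assoc]
    rw [Finset.prod_congr rfl (fun j _ => h3 j), Finset.prod_mul_distrib, Finset.prod_pow_eq_pow_sum,
      ← Finset.mul_sum, ← hg]
    push_cast
    rfl
  rw [hPr] at hev
  have hr2 : r = ∏ j, Algebra.norm ℤ (w j) := by
    have h1 : ((2 : ℤ) ^ (2 * g) * r : ℤ) = (2 : ℤ) ^ (2 * g) * ∏ j, Algebra.norm ℤ (w j) := by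
      have h2 : (((2 : ℤ) ^ (2 * g) * r : ℤ) : ℂ) =
          (((2 : ℤ) ^ (2 * g) * ∏ j, Algebra.norm ℤ (w j) : ℤ) : ℂ) := by
        rw [hev]
        push_cast
        rfl
      exact_mod_cast h2
    exact mul_left_cancel₀ (pow_ne_zero _ two_ne_zero) h1
  obtain ⟨v, hv⟩ := hw0
  have heven : (2 : ℤ) ∣ Algebra.norm ℤ (w j0) := by
    have h1 := ABS_norm (F := F j0) 2 v
    have h2 : (((2 : ℕ) : 𝓞 (F j0)) * v) = w j0 := by rw [hv]; push_cast; rfl
    rw [h2, nfc_norm] at h1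
    have h3 : (Algebra.norm ℤ (w j0)) = 2 ^ (Fintype.card (F j0 →+* ℂ)) * Algebra.norm ℤ v := by
      exact_mod_cast h1
    rw [h3]
    have hc : Fintype.card (F j0 →+* ℂ) ≠ 0 := Fintype.card_ne_zero
    exact (dvd_pow_self 2 hc).mul_right _
  have h2r : (2 : ℤ) ∣ r := by
    rw [hr2]
    exact heven.trans (Finset.dvd_prod_of_mem (fun j => Algebra.norm ℤ (w j)) (Finset.mem_univ j0))
  rcases hr with ⟨m, hm⟩
  omega

end Pool.Agent.H48.HC
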