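import Pool.Agent.H48.HC.STB

/-! ROW CI (H48.HC): `P_S(1 + 2v) ∈ 2^(2g) ℤ[v]`, `g = gen |S|`.

LEMMA `C_dvd_of_monic_mul`: if `M` is monic and `C k ∣ M * Q` in `ℤ[X]` then `C k ∣ Q`.  Proof: `M * Q = C k * E`.  Divide `E = M * E1 + r`, `deg r < deg M`
(`modByMonic_add_div`, `degree_modByMonic_lt`).  Then `M * (Q - C k * E1) = C k * r` has degree `< deg M`, so `Q - C k * E1 = 0`.
(Or: map to `(ZMod k)[X]`, where a monic polynomial is a non-zero-divisor, `C_dvd_iff_dvd_coeff`.)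

PROOF of `levelOne`.  Strong induction on `|S|`.  Let `s = |S| ≥ 1`, `p = 2m + 1`.  Put `φ(F) = F.comp (C 1 + C 2 * X)` (ring hom).
`φ(X - C 1) = C 2 * X`, `φ(X - C p) = C 2 * (X - C m)`.  Apply `φ` to `star`:
`∑_{T ∈ nes S} C 2 (X - C m) (C 2 X)^(s-t+ev t) φ(Pol T) + (C 2 X)^s = C (2^s) φ(Γ)`, `t = |T|`.
For `T ∈ nes S`, `T ≠ S`: `t < s`, induction hypothesis `φ(Pol T) = C (2^(2 gen t)) G_T`; `1 + (s - t + ev t) + 2 gen t = s` (`two_gen_add_ev`), so the term is
`C (2^s) (X - C m) X^(s-t+ev t) G_T`.  The term `T = S` is `C (2^(1 + ev s)) * ((X - C m) * X^(ev s)) * φ(Pol S)`.  Hence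
`C (2^(1+ev s)) * ((X - C m) * X^(ev s) * φ(Pol S)) = C (2^s) * E` for some `E : ℤ[X]`; `s = (1 + ev s) + 2 gen s`; cancel `C (2^(1+ev s))`:
`(X - C m) * X^(ev s) * φ(Pol S) = C (2^(2 gen s)) * E`; `(X - C m) * X^(ev s)` is monic, so `C (2^(2 gen s)) ∣ φ(Pol S)` by the lemma. -/

set_option autoImplicit false

open Polynomial Pool.Agent.H99.RM

namespace Pool.Agent.H48.HC

variable {p : ℕ} [Fact p.Prime] {N : ℕ}

theorem C_dvd_of_monic_mul {M Q : ℤ[X]} (hM : M.Monic) {k : ℤ} (h : C k ∣ M * Q) : C k ∣ Q := by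
  obtain ⟨E, hE⟩ := h
  refine ⟨E /ₘ M, ?_⟩
  have h1 : E %ₘ M + M * (E /ₘ M) = E := modByMonic_add_div E M
  have h2 : M * (Q - C k * (E /ₘ M)) = C k * (E %ₘ M) := by
    have : C k * (E %ₘ M) = C k * E - M * (C k * (E /ₘ M)) := by
      linear_combination C k * h1
    rw [this, ← hE]
    ring
  by_contra hne
  have h3 : Q - C k * (E /ₘ M) ≠ 0 := sub_ne_zero.mpr hne
  have h4 : (M * (Q - C k * (E /ₘ M))).degree = M.degree + (Q - C k * (E /ₘ M)).degree :=
    degree_mul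
  have h5 : (C k * (E %ₘ M)).degree ≤ (E %ₘ M).degree := by
    rw [degree_mul]
    calc (C k).degree + (E %ₘ M).degree ≤ 0 + (E %ₘ M).degree :=
          add_le_add_left degree_C_le _
      _ = (E %ₘ M).degree := zero_add _
  have h6 : (E %ₘ M).degree < M.degree := degree_modByMonic_lt E hM
  have h7 : M.degree ≤ M.degree + (Q - C k * (E /ₘ M)).degree := by
    have : (0 : WithBot ℕ) ≤ (Q - C k * (E /ₘ M)).degree := zero_le_degree_iff.mpr h3
    calc M.degree = M.degree + 0 := (add_zero _).symm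
      _ ≤ _ := add_le_add_right this _
  rw [← h4, h2] at h7
  exact absurd (h7.trans h5) (not_le.mpr h6)

theorem two_pow_split {s t : ℕ} (hts : t ≤ s) (ht : 1 ≤ t) :
    1 + (s - t + ev t) + 2 * gen t = s := by
  have := two_gen_add_ev ht
  omega

theorem levelOne (hp2 : p ≠ 2) {r : Fin N → ZMod p} (hr : SqD r) {S : Finset (Fin N)} (hS : S.Nonempty) :
    ∃ G : ℤ[X], (Pol r S).comp (C 1 + C 2 * X) = C ((2 : ℤ) ^ (2 * gen S.card)) * G := by
  classical
  obtain ⟨m, hm⟩ : ∃ m : ℕ, p = 2 * m + 1 := by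
    have hp : p.Prime := Fact.out
    rcases hp.eq_two_or_odd' with h | h
    · exact absurd h hp2
    · exact h
  induction S using Finset.strongInduction with
  | H S ih =>
    obtain ⟨Γ, hΓ⟩ := star hp2 hr hS
    have hG : ∀ T : Finset (Fin N), ∃ G : ℤ[X], T ∈ (nes S).erase S →
        (Pol r T).comp (C 1 + C 2 * X) = C ((2 : ℤ) ^ (2 * gen T.card)) * G := by
      intro T
      by_cases hT : T ∈ (nes S).erase S
      · rw [Finset.mem_erase, mem_nes] at hT
        obtain ⟨G, hG⟩ := ih T (Finset.ssubset_iff_subset_ne.mpr ⟨hT.2.1, hT.1⟩) hT.2.2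
        exact ⟨G, fun _ => hG⟩
      · exact ⟨0, fun h => absurd h hT⟩
    choose G hG using hG
    have hSmem : S ∈ nes S := mem_nes.mpr ⟨subset_rfl, hS⟩
    have hs1 : 1 ≤ S.card := hS.card_pos
    rw [← Finset.add_sum_erase _ _ hSmem] at hΓ
    have e1 : (X - C (p : ℤ) : ℤ[X]).comp (C 1 + C 2 * X) = C 2 * (X - C (m : ℤ)) := by
      rw [hm]
      simp only [sub_comp, X_comp, C_comp]
      have : ((2 * m + 1 : ℕ) : ℤ) = 2 * (m : ℤ) + 1 := by push_cast; ring
      rw [this]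
      simp only [map_add, map_mul]
      ring
    have e2 : (X - C 1 : ℤ[X]).comp (C 1 + C 2 * X) = C 2 * X := by
      simp only [sub_comp, X_comp, C_comp]
      ring
    have hΓ' := congrArg (fun F : ℤ[X] => F.comp (C 1 + C 2 * X)) hΓ
    simp only [add_comp, mul_comp, pow_comp, Polynomial.sum_comp, e1, e2, C_comp] at hΓ'
    have hsum : (∑ T ∈ (nes S).erase S, C 2 * (X - C (m : ℤ)) *
        (C 2 * X) ^ (S.card - T.card + ev T.card) * (Pol r T).comp (C 1 + C 2 * X)) =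
        C ((2 : ℤ) ^ S.card) * ∑ T ∈ (nes S).erase S,
          (X - C (m : ℤ)) * X ^ (S.card - T.card + ev T.card) * G T := by
      rw [Finset.mul_sum]
      refine Finset.sum_congr rfl fun T hT => ?_
      rw [hG T hT]
      rw [Finset.mem_erase, mem_nes] at hT
      have h1 := two_pow_split (Finset.card_le_card hT.2.1) hT.2.2.card_pos
      have h2 : C ((2 : ℤ) ^ S.card) = C (2 : ℤ) * C 2 ^ (S.card - T.card + ev T.card) *
          C ((2 : ℤ) ^ (2 * gen T.card)) := by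
        rw [← map_pow, ← map_mul, ← map_mul]
        congr 1
        conv_lhs => rw [← h1]
        rw [pow_add, pow_add, pow_one]
      rw [h2, mul_pow]
      ring
    rw [hsum] at hΓ'
    have hcard : (2 : ℤ) ^ S.card = 2 ^ (1 + ev S.card) * 2 ^ (2 * gen S.card) := by
      rw [← pow_add]
      congr 1
      have := two_gen_add_ev hs1
      omega
    have key : C ((2 : ℤ) ^ (1 + ev S.card)) *
        (((X - C (m : ℤ)) * X ^ ev S.card) * (Pol r S).comp (C 1 + C 2 * X)) =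
        C ((2 : ℤ) ^ (1 + ev S.card)) * (C ((2 : ℤ) ^ (2 * gen S.card)) *
          (Γ.comp (C 1 + C 2 * X) - (∑ T ∈ (nes S).erase S,
          (X - C (m : ℤ)) * X ^ (S.card - T.card + ev T.card) * G T) - X ^ S.card)) := by
      rw [← mul_assoc (C ((2 : ℤ) ^ (1 + ev S.card))) (C ((2 : ℤ) ^ (2 * gen S.card))), ← map_mul,
        ← hcard, mul_sub, mul_sub, ← hΓ']
      have h3 : C ((2 : ℤ) ^ (1 + ev S.card)) = C (2 : ℤ) * C 2 ^ (ev S.card) := by
        rw [← map_pow, ← map_mul]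
        congr 1
        rw [pow_add, pow_one]
      rw [h3, Nat.sub_self, zero_add, mul_pow, mul_pow, map_pow]
      ring
    have hne : C ((2 : ℤ) ^ (1 + ev S.card)) ≠ 0 := by
      rw [Ne, C_eq_zero]
      positivity
    have key2 := mul_left_cancel₀ hne key
    have hmon : ((X - C (m : ℤ)) * X ^ ev S.card : ℤ[X]).Monic :=
      (monic_X_sub_C _).mul (monic_X_pow _)
    obtain ⟨Q, hQ⟩ := C_dvd_of_monic_mul hmon ⟨_, key2⟩
    exact ⟨Q, hQ⟩

end Pool.Agent.H48.HC
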