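import Pool.Agent.H48.HC.CI

/-! ROW CII (H48.HC): `P_S(-1) = 2^(2g) * odd` for `p ≡ 1 mod 4`, `g = gen |S|`.

PROOF.  Strong induction on `|S|`.  Let `s = |S| ≥ 1`; for every `T ∈ nes S`, `t = |T|`, let `r_T : ℤ` with `P_T(-1) = 2^(2 gen t) r_T` (`levelOne` evaluated at `-1`), and
`P_S(1) = 2^(2 gen s) w` (`levelOne` at `0`).
`star` at `X = 1`: the exponent `s - t + ev t` is `0` only if `t = s` odd (then `T = S`); so if `s` is odd `(1 - p) P_S(1) = 2^s Γ(1)`, `2 gen s = s - 1`, `(1 - p) w = 2 Γ(1)`, and `4 ∣ 1 - p`, so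
`Γ(1)` is even; if `s` is even, `2^s Γ(1) = 0`, `Γ(1) = 0`.  In all cases `Γ(1)` is even, and `2 = 1 - (-1) ∣ Γ(1) - Γ(-1)` (`Polynomial.sub_dvd_eval_sub`), so `Γ(-1)` is even.
`star` at `X = -1`: `(-1 - p) (-2)^(s-t+ev t) 2^(2 gen t) r_T`; `s - t + ev t ≡ s + 1 mod 2` and `(s - t + ev t) + 2 gen t = s - 1`, so the term is
`(-1)^s (1 + p) 2^(s-1) r_T`; so `(-1)^s ((1+p) 2^(s-1) ∑_T r_T + 2^s) = 2^s Γ(-1)`, i.e. `(-1)^s (((1+p)/2) ∑_T r_T + 1) = Γ(-1)` is even; `(1+p)/2` is odd, hence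
`∑_{T ∈ nes S} r_T` is odd.  By induction `r_T` is odd for `T ≠ S`; `#(nes S) = 2^s - 1` (`Finset.card_powerset`), so `∑_{T ∈ nes S, T ≠ S} r_T ≡ 2^s - 2 ≡ 0 mod 2`, and `r_S` is odd. -/

set_option autoImplicit false

open Polynomial Pool.Agent.H99.RM

namespace Pool.Agent.H48.HC

variable {p : ℕ} [Fact p.Prime] {N : ℕ}

theorem cii_card (S : Finset (Fin N)) : (nes S).card = 2 ^ S.card - 1 := by
  have h : nes S = S.powerset.erase ∅ := by
    ext T
    rw [mem_nes, Finset.mem_erase, Finset.mem_powerset, Finset.nonempty_iff_ne_empty, and_comm]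
  rw [h, Finset.card_erase_of_mem (Finset.empty_mem_powerset S), Finset.card_powerset]

theorem cii_sum {α : Type} [DecidableEq α] (s : Finset α) (f : α → ℤ) (h : ∀ a ∈ s, Odd (f a)) :
    ∃ b : ℤ, ∑ a ∈ s, f a = 2 * b + s.card := by
  refine ⟨∑ a ∈ s, (f a - 1) / 2, ?_⟩
  have e : ∀ a ∈ s, f a = 2 * ((f a - 1) / 2) + 1 := by
    intro a ha
    obtain ⟨c, hc⟩ := h a ha
    omega
  rw [Finset.sum_congr rfl e, Finset.sum_add_distrib, Finset.mul_sum]
  simp

theorem cii_pow (s t : ℕ) (ht : 1 ≤ t) (hts : t ≤ s) :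
    (-2 : ℤ) ^ (s - t + ev t) * 2 ^ (2 * gen t) = (-1) ^ (s - 1) * 2 ^ (s - 1) := by
  have h := two_gen_add_ev ht
  have e : s - 1 = (s - t + ev t) + 2 * gen t := by omega
  have e2 : (-2 : ℤ) ^ (s - t + ev t) = (-1) ^ (s - t + ev t) * 2 ^ (s - t + ev t) := by
    rw [← mul_pow]
    norm_num
  have e3 : (-1 : ℤ) ^ (s - 1) = (-1) ^ (s - t + ev t) := by
    rw [e, pow_add, pow_mul]
    norm_num
  rw [e2, e3, e, pow_add (2 : ℤ)]
  ring

theorem cii_aux (hp4 : p % 4 = 1) {r : Fin N → ZMod p} (hr : SqD r) (n : ℕ) :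
    ∀ S : Finset (Fin N), S.card = n → S.Nonempty →
    ∃ w : ℤ, Odd w ∧ (Pol r S).eval (-1) = (2 : ℤ) ^ (2 * gen S.card) * w := by
  classical
  have hp2 : p ≠ 2 := by
    intro h
    rw [h] at hp4
    omega
  obtain ⟨m, hm⟩ : ∃ m : ℤ, (p : ℤ) = 4 * m + 1 := ⟨(p / 4 : ℕ), by omega⟩
  induction n using Nat.strong_induction_on with
  | _ n ih =>
  intro S hSn hS
  have hs1 : 1 ≤ S.card := hS.card_pos
  have hG : ∀ T : Finset (Fin N), ∃ G : ℤ[X], T.Nonempty →
      (Pol r T).comp (C 1 + C 2 * X) = C ((2 : ℤ) ^ (2 * gen T.card)) * G := by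
    intro T
    by_cases hT : T.Nonempty
    · obtain ⟨G, hG⟩ := levelOne hp2 hr hT
      exact ⟨G, fun _ => hG⟩
    · exact ⟨0, fun h => absurd h hT⟩
  choose G hG using hG
  have hρ : ∀ T : Finset (Fin N), T.Nonempty →
      (Pol r T).eval (-1) = (2 : ℤ) ^ (2 * gen T.card) * (G T).eval (-1) := by
    intro T hT
    have h := congrArg (eval (-1)) (hG T hT)
    rw [eval_comp, eval_mul, eval_C] at h
    have e : eval (-1) (C 1 + C 2 * X : ℤ[X]) = -1 := by simp
    rw [e] at h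
    exact h
  have hρ0 : (Pol r S).eval 1 = (2 : ℤ) ^ (2 * gen S.card) * (G S).eval 0 := by
    have h := congrArg (eval 0) (hG S hS)
    rw [eval_comp, eval_mul, eval_C] at h
    have e : eval 0 (C 1 + C 2 * X : ℤ[X]) = 1 := by simp
    rw [e] at h
    exact h
  obtain ⟨Γ, hΓ⟩ := star hp2 hr hS
  -- value at 1
  have h1 : Even (Γ.eval 1) := by
    have h := congrArg (eval 1) hΓ
    rw [eval_add, eval_finsetSum, eval_mul, eval_C, eval_pow, eval_sub, eval_X, eval_C, sub_self,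
      zero_pow (by omega), add_zero] at h
    have hz : ∀ T ∈ nes S, T ≠ S → eval 1 ((X - C (p : ℤ)) *
        (X - C 1) ^ (S.card - T.card + ev T.card) * Pol r T) = 0 := by
      intro T hT hne
      have hlt : T.card < S.card := Finset.card_lt_card ((mem_nes.1 hT).1.ssubset_of_ne hne)
      rw [eval_mul, eval_mul, eval_pow, eval_sub, eval_sub, eval_X, eval_C, eval_C, sub_self,
        zero_pow (by omega), mul_zero, zero_mul]
    rw [Finset.sum_eq_single_of_mem S (mem_nes.2 ⟨Finset.Subset.refl S, hS⟩) hz, eval_mul,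
      eval_mul, eval_pow, eval_sub, eval_sub, eval_X, eval_C, eval_C, sub_self, Nat.sub_self,
      zero_add, hρ0] at h
    by_cases he : Even S.card
    · have e1 : ev S.card = 1 := by
        unfold ev
        rw [if_pos he]
      rw [e1] at h
      have h2 : (2 : ℤ) ^ S.card * Γ.eval 1 = 0 := by
        rw [← h]
        ring
      rcases mul_eq_zero.1 h2 with h3 | h3
      · exact absurd h3 (pow_ne_zero _ two_ne_zero)
      · rw [h3]
        exact Even.zero
    · have e1 : ev S.card = 0 := by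
        unfold ev
        rw [if_neg he]
      have e2 := two_gen_add_ev hs1
      rw [e1] at e2
      have e3 : S.card = 2 * gen S.card + 1 := by omega
      have e4 : (2 : ℤ) ^ S.card = 2 ^ (2 * gen S.card) * 2 := by
        conv_lhs => rw [e3]
        rw [pow_succ]
      rw [e1, pow_zero, mul_one, e4, hm] at h
      have h2 : (2 : ℤ) ^ (2 * gen S.card) * ((-4 * m) * (G S).eval 0) =
          2 ^ (2 * gen S.card) * (2 * Γ.eval 1) := by
        linear_combination h
      have h3 := mul_left_cancel₀ (pow_ne_zero _ two_ne_zero) h2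
      refine ⟨-m * (G S).eval 0, ?_⟩
      linarith
  have h2 : Even (Γ.eval (-1)) := by
    have hd : (1 : ℤ) - (-1) ∣ Γ.eval 1 - Γ.eval (-1) := sub_dvd_eval_sub 1 (-1) Γ
    obtain ⟨c, hc⟩ := hd
    obtain ⟨a, ha⟩ := h1
    exact ⟨a - c, by linarith⟩
  -- value at -1
  have h3 : (-1 : ℤ) ^ S.card * ((2 * m + 1) * (∑ T ∈ nes S, (G T).eval (-1)) + 1) =
      Γ.eval (-1) := by
    have h := congrArg (eval (-1)) hΓ
    rw [eval_add, eval_finsetSum, eval_mul, eval_C, eval_pow, eval_sub, eval_X, eval_C] at h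
    have e : ∀ T ∈ nes S, eval (-1) ((X - C (p : ℤ)) *
        (X - C 1) ^ (S.card - T.card + ev T.card) * Pol r T) =
        (-1) ^ S.card * 2 ^ S.card * ((2 * m + 1) * (G T).eval (-1)) := by
      intro T hT
      obtain ⟨hTS, hTn⟩ := mem_nes.1 hT
      have hc := Finset.card_le_card hTS
      have hp := cii_pow S.card T.card hTn.card_pos hc
      rw [eval_mul, eval_mul, eval_pow, eval_sub, eval_sub, eval_X, eval_C, eval_C, hρ T hTn, hm]
      have e1 : (-1 : ℤ) ^ S.card = -(-1) ^ (S.card - 1) := by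
        conv_lhs => rw [show S.card = (S.card - 1) + 1 by omega]
        rw [pow_succ]
        ring
      have e2 : (2 : ℤ) ^ S.card = 2 * 2 ^ (S.card - 1) := by
        conv_lhs => rw [show S.card = (S.card - 1) + 1 by omega]
        rw [pow_succ]
        ring
      rw [e1, e2]
      have e3 : (-1 - 1 : ℤ) = -2 := by norm_num
      rw [e3]
      linear_combination (-(2 * (2 * m + 1)) * (G T).eval (-1)) * hp
    rw [Finset.sum_congr rfl e, ← Finset.mul_sum, ← Finset.mul_sum] at h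
    have e3 : (-1 - 1 : ℤ) ^ S.card = (-1) ^ S.card * 2 ^ S.card := by
      rw [← mul_pow]
      norm_num
    rw [e3] at h
    have h4 : (2 : ℤ) ^ S.card * ((-1 : ℤ) ^ S.card *
        ((2 * m + 1) * (∑ T ∈ nes S, (G T).eval (-1)) + 1)) = 2 ^ S.card * Γ.eval (-1) := by
      linear_combination h
    exact mul_left_cancel₀ (pow_ne_zero _ two_ne_zero) h4
  have h4 : Odd (∑ T ∈ nes S, (G T).eval (-1)) := by
    by_contra hno
    rw [Int.not_odd_iff_even] at hno
    obtain ⟨a, ha⟩ := hno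
    obtain ⟨b, hb⟩ := h2
    rw [ha, hb] at h3
    rcases neg_one_pow_eq_or ℤ S.card with h5 | h5
    · rw [h5] at h3
      have h6 : (2 * m + 1) * (a + a) = 2 * ((2 * m + 1) * a) := by ring
      rw [h6] at h3
      omega
    · rw [h5] at h3
      have h6 : (2 * m + 1) * (a + a) = 2 * ((2 * m + 1) * a) := by ring
      rw [h6] at h3
      omega
  have hSm : S ∈ nes S := mem_nes.2 ⟨Finset.Subset.refl S, hS⟩
  have h5 : ∀ T ∈ (nes S).erase S, Odd ((G T).eval (-1)) := by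
    intro T hT
    obtain ⟨hne, hT⟩ := Finset.mem_erase.1 hT
    obtain ⟨hTS, hTn⟩ := mem_nes.1 hT
    have hlt : T.card < S.card := Finset.card_lt_card (hTS.ssubset_of_ne hne)
    obtain ⟨w, hw, hw2⟩ := ih T.card (by omega) T rfl hTn
    rw [hρ T hTn] at hw2
    rw [mul_left_cancel₀ (pow_ne_zero _ two_ne_zero) hw2]
    exact hw
  obtain ⟨b, hb⟩ := cii_sum _ _ h5
  have h6 : (((nes S).erase S).card : ℤ) = 2 * (2 ^ (S.card - 1) - 1) := by
    rw [Finset.card_erase_of_mem hSm, cii_card]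
    have e2 : 2 ^ S.card = 2 * 2 ^ (S.card - 1) := by
      conv_lhs => rw [show S.card = (S.card - 1) + 1 by omega]
      rw [pow_succ]
      ring
    have e3 : 1 ≤ 2 ^ (S.card - 1) := Nat.one_le_two_pow
    have e4 : ((2 ^ (S.card - 1) : ℕ) : ℤ) = (2 : ℤ) ^ (S.card - 1) := by push_cast; rfl
    rw [e2, ← e4]
    generalize 2 ^ (S.card - 1) = e at e3
    omega
  refine ⟨(G S).eval (-1), ?_, hρ S hS⟩
  rw [← Finset.sum_erase_add _ _ hSm, hb, h6] at h4
  obtain ⟨c, hc⟩ := h4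
  exact ⟨c - b - (2 ^ (S.card - 1) - 1), by linarith⟩

theorem exactNegOne (hp4 : p % 4 = 1) {r : Fin N → ZMod p} (hr : SqD r) {S : Finset (Fin N)} (hS : S.Nonempty) :
    ∃ w : ℤ, Odd w ∧ (Pol r S).eval (-1) = (2 : ℤ) ^ (2 * gen S.card) * w := by
  exact cii_aux hp4 hr _ S rfl hS

end Pool.Agent.H48.HC
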