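import Pool.Agent.H48.HC.D2
import Pool.Agent.H99.RM.Lnk

/-! ROW CNT (H48.HC): number of points.

PROOF.  `F = GaloisField p n` (finite, `p^n` elements, `ringChar = p ≠ 2`), `χ = quadraticChar F`, `c' = algebraMap c`, `r' i = algebraMap (r i)`.
`aeval x (C c * ∏ (X - C (r i))) = c' * ∏ (x - r' i)`.  For every `v : F` the number of `y : F` with `y^2 = v` is `1 + χ v` (`quadraticChar_card_sqrts`).  `c` is a nonzero square in `ZMod p`
(`quadraticChar_one_iff_isSquare`), so `c'` is a nonzero square: `χ c' = 1`.  Number of affine points `= ∑_x (1 + χ (c' * ∏ (x - r' i))) = p^n + NS = p^n + NG p n r`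
(fibre over `x`; see the proof of `lnk_main` in Pool/Agent/H99/RM/Lnk.lean).
At infinity: the coefficient of `X^(2g+2)` of `C c * ∏_{i : Fin N} (X - C (r i))` (natDegree `N`, leading coefficient `c`) is `c` if `N = 2g+2` (so `1 + χ c' = 2` points) and `0` if
`N = 2g+1` (`w^2 = 0`, one point).  `ev (2g+2) = 1`, `ev (2g+1) = 0`. -/

set_option autoImplicit false

open Polynomial Pool.Agent.H99.RM

namespace Pool.Agent.H48.HC

variable {p : ℕ} [Fact p.Prime] {N : ℕ}

theorem CNT_sqrts {F : Type} [Field F] [Fintype F] [DecidableEq F] (hF : ringChar F ≠ 2) (v : F) :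
    (Nat.card {w : F // w ^ 2 = v} : ℤ) = 1 + quadraticChar F v := by
  have h3 := quadraticChar_card_sqrts hF v
  rw [Nat.card_eq_fintype_card, add_comm, ← h3, Fintype.card_subtype, Set.toFinset_ofPred]

theorem curvePoints_eq (hp2 : p ≠ 2) {g : ℕ} (hN : N = 2 * g + 1 ∨ N = 2 * g + 2) {c : ZMod p}
    (hc : quadraticChar (ZMod p) c = 1) (r : Fin N → ZMod p) {n : ℕ} (hn : 1 ≤ n) :
    (curvePoints p g (C c * ∏ i, (X - C (r i))) n : ℤ) = (p : ℤ) ^ n + NG p n r + 1 + (ev N : ℤ) := by
  classical
  let _inst := Fintype.ofFinite (GaloisField p n)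
  have hch : ringChar (GaloisField p n) = p := ringChar.eq (GaloisField p n) p
  have hch2 : ringChar (GaloisField p n) ≠ 2 := by rw [hch]; exact hp2
  have hcard : Fintype.card (GaloisField p n) = p ^ n := by
    rw [← Nat.card_eq_fintype_card]
    exact GaloisField.card p n (by omega)
  have hc0 : c ≠ 0 := by
    intro h0
    rw [h0] at hc
    simp at hc
  have hsq : IsSquare c := (quadraticChar_one_iff_isSquare hc0).mp hc
  have hc0' : algebraMap (ZMod p) (GaloisField p n) c ≠ 0 := by
    intro h0
    exact hc0 ((map_eq_zero _).mp h0)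
  have hsq' : IsSquare (algebraMap (ZMod p) (GaloisField p n) c) := hsq.map _
  have hchi : quadraticChar (GaloisField p n) (algebraMap (ZMod p) (GaloisField p n) c) = 1 :=
    (quadraticChar_one_iff_isSquare hc0').mpr hsq'
  -- affine points
  have haff : (Nat.card {P : GaloisField p n × GaloisField p n //
      P.2 ^ 2 = aeval P.1 (C c * ∏ i, (X - C (r i)))} : ℤ) = (p : ℤ) ^ n + NG p n r := by
    rw [lnk_count hch2 (fun x => aeval x (C c * ∏ i, (X - C (r i)))), hcard, Nat.cast_pow]
    congr 1
    unfold NG NS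
    refine Finset.sum_congr rfl fun x _ => ?_
    have h1 : aeval x (C c * ∏ i, (X - C (r i))) =
        algebraMap (ZMod p) (GaloisField p n) c * ∏ i, (x - algebraMap (ZMod p) (GaloisField p n) (r i)) := by
      rw [map_mul, aeval_C, map_prod]
      simp only [map_sub, aeval_X, aeval_C]
    rw [h1, map_mul, hchi, one_mul]
  -- points at infinity
  have hmon : (∏ i, (X - C (r i))).Monic := monic_prod_of_monic _ _ (fun i _ => monic_X_sub_C _)
  have hdeg : (∏ i, (X - C (r i))).natDegree = N := by
    rw [natDegree_prod_of_monic _ _ (fun i _ => monic_X_sub_C _)]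
    simp
  have hinf : (Nat.card {w : GaloisField p n // w ^ 2 =
      algebraMap (ZMod p) (GaloisField p n) ((C c * ∏ i, (X - C (r i))).coeff (2 * g + 2))} : ℤ) =
      1 + (ev N : ℤ) := by
    rw [CNT_sqrts hch2, coeff_C_mul]
    rcases hN with h | h
    · have h1 : (∏ i, (X - C (r i))).coeff (2 * g + 2) = 0 := by
        apply coeff_eq_zero_of_natDegree_lt
        rw [hdeg]; omega
      rw [h1, mul_zero, map_zero, MulCharClass.map_nonunit _ (by simp)]
      have h2 : ev N = 0 := by
        unfold ev
        rw [if_neg]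
        rintro ⟨k, hk⟩
        omega
      rw [h2]; simp
    · have h1 : (∏ i, (X - C (r i))).coeff (2 * g + 2) = 1 := by
        have h3 := hmon.coeff_natDegree
        have h4 : (∏ i, (X - C (r i))).natDegree = 2 * g + 2 := by rw [hdeg, h]
        rw [h4] at h3
        exact h3
      rw [h1, mul_one, hchi]
      have h2 : ev N = 1 := by
        unfold ev
        rw [if_pos]
        exact ⟨g + 1, by omega⟩
      rw [h2]; simp
  unfold curvePoints
  rw [Nat.cast_add, haff, hinf]
  ring

end Pool.Agent.H48.HC
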