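import Pool.Agent.H48.HC.Def
import Pool.Agent.H99.RM.Defs

/-! Internal definitions (H48.HC), on top of Pool/Agent/H99/RM. -/

set_option autoImplicit false

open Polynomial Pool.Agent.H99.RM

namespace Pool.Agent.H48.HC

variable {p : ℕ} [Fact p.Prime] {N : ℕ}

/-- all differences are nonzero squares -/
def SqD (r : Fin N → ZMod p) : Prop := ∀ i j, i ≠ j → quadraticChar (ZMod p) (r i - r j) = 1

/-- `1` if `n` is even, `0` if `n` is odd -/
def ev (n : ℕ) : ℕ := if Even n then 1 else 0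

/-- genus: `g` for `n = 2g+1` and `n = 2g+2` -/
def gen (n : ℕ) : ℕ := (n - 1) / 2

/-- `A_S(u)` -/
noncomputable def Aser (r : Fin N → ZMod p) (S : Finset (Fin N)) : ℤ[X] :=
  ∑ k ∈ Finset.range S.card, C (AS r S ∅ k) * X ^ k

/-- `T^{|S|-1} A_S(1/T)` -/
noncomputable def Apoly (r : Fin N → ZMod p) (S : Finset (Fin N)) : ℤ[X] :=
  ∑ k ∈ Finset.range S.card, C (AS r S ∅ k) * X ^ (S.card - 1 - k)

/-- `P_S`: `Apoly / (X - 1)` for `|S|` even, `Apoly` for `|S|` odd -/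
noncomputable def Pol (r : Fin N → ZMod p) (S : Finset (Fin N)) : ℤ[X] :=
  if Even S.card then Apoly r S /ₘ (X - C 1) else Apoly r S

/-- nonempty subsets -/
def nes (S : Finset (Fin N)) : Finset (Finset (Fin N)) := S.powerset.filter (fun T => T.Nonempty)

/-- `(1-u)^{|S|} + ∑_{∅ ≠ T ⊆ S} (1 - p u) (1-u)^{|S|-|T|} A_T(u)` -/
noncomputable def Lpoly (r : Fin N → ZMod p) (S : Finset (Fin N)) : ℤ[X] :=
  (∑ T ∈ nes S, (1 - C (p : ℤ) * X) * (1 - X) ^ (S.card - T.card) * Aser r T) + (1 - X) ^ S.card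

theorem mem_nes {S T : Finset (Fin N)} : T ∈ nes S ↔ T ⊆ S ∧ T.Nonempty := by
  simp [nes]

theorem SqD.inj {r : Fin N → ZMod p} (hr : SqD r) : Function.Injective r := by
  intro i j hij
  by_contra hne
  have h1 := hr i j hne
  rw [hij, sub_self] at h1
  simp at h1

theorem two_gen_add_ev {n : ℕ} (hn : 1 ≤ n) : 2 * gen n + ev n = n - 1 := by
  unfold gen ev
  split_ifs with h
  · rcases h with ⟨k, hk⟩; omega
  · rcases Nat.not_even_iff_odd.mp h with ⟨k, hk⟩; omega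

end Pool.Agent.H48.HC
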