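import Mathlib

/-! Definitions for MP_17d720_ag (good ordinary reduction of hyperelliptic curves over number fields). -/

set_option autoImplicit false

open Polynomial NumberField IsDedekindDomain

namespace Pool.Agent.H48.HC

/-- Number of points over the field `GaloisField p n` with `p ^ n` elements (`n ≥ 1`) of the smooth projective curve of genus
`g` with affine equation `y² = f(x)`, for a separable polynomial `f` of degree `2g + 1` or `2g + 2` over `F_p`: the affine
points, and the points at infinity, one for each square root of the coefficient of `x ^ (2g + 2)`. -/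
noncomputable def curvePoints (p : ℕ) [Fact p.Prime] (g : ℕ) (f : (ZMod p)[X]) (n : ℕ) : ℕ :=
  Nat.card {P : GaloisField p n × GaloisField p n // P.2 ^ 2 = aeval P.1 f} +
  Nat.card {w : GaloisField p n // w ^ 2 = algebraMap (ZMod p) (GaloisField p n) (f.coeff (2 * g + 2))}

/-- `P` is the characteristic polynomial of Frobenius of the curve `y² = f(x)` of genus `g` over `F_p`: it is monic of degree
`2g` with integer coefficients, and the number of points over the field with `p ^ n` elements is `p ^ n + 1 - ∑ α ^ n` for all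
`n ≥ 1`, the sum over the complex roots `α` of `P` with multiplicity.  (This determines `P`.) -/
def IsFrobPoly (p : ℕ) [Fact p.Prime] (g : ℕ) (f : (ZMod p)[X]) (P : ℤ[X]) : Prop :=
  P.Monic ∧ P.natDegree = 2 * g ∧ ∀ n : ℕ, 1 ≤ n →
    (curvePoints p g f n : ℂ) = (p : ℂ) ^ n + 1 - ((P.map (Int.castRingHom ℂ)).roots.map (fun α => α ^ n)).sum

/-- The hyperelliptic curve `y² = f(x)` of genus `g` over the number field `K`, `f ∈ 𝓞 K [x]`, has good ordinary reduction at
the place `v` with residue field `F_p` (`π : 𝓞 K → F_p` is the reduction): `p` is odd, `f mod v` is separable of degree `2g + 1`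
or `2g + 2`, and `p` does not divide the middle coefficient of the characteristic polynomial of Frobenius. -/
def GoodOrdinaryAt {K : Type} [Field K] [NumberField K] (g : ℕ) (f : (𝓞 K)[X]) (v : HeightOneSpectrum (𝓞 K)) : Prop :=
  ∃ (p : ℕ) (_ : Fact p.Prime) (π : 𝓞 K →+* ZMod p), RingHom.ker π = v.asIdeal ∧ p ≠ 2 ∧ (f.map π).Separable ∧
    ((f.map π).natDegree = 2 * g + 1 ∨ (f.map π).natDegree = 2 * g + 2) ∧
    ∃ P : ℤ[X], IsFrobPoly p g (f.map π) P ∧ ¬ ((p : ℤ) ∣ P.coeff g)

/-- `L = T² + a T + p`. -/
def RankTwo {R : Type*} [CommRing R] (p : ℕ) (L : R[X]) : Prop :=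
  ∃ a : R, L = X ^ 2 + C a * X + C (p : R)

/-- `L = T⁴ + a T³ + b T² + p a T + p²`. -/
def RankFour {R : Type*} [CommRing R] (p : ℕ) (L : R[X]) : Prop :=
  ∃ a b : R, L = X ^ 4 + C a * X ^ 3 + C b * X ^ 2 + C ((p : R) * a) * X + C ((p : R) ^ 2)

end Pool.Agent.H48.HC
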