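import Pool.Agent.H48.HC.D2
import Pool.Agent.H99.RM.Stp

/-! ROW EVN (H48.HC): Stepanov's bound for any number `N ≥ 1` of points.

PROOF.  `N` odd: `stepanov N` applied to `F = GaloisField p m` (`Fintype.ofFinite`, `p^m` elements, `ringChar = p ≠ 2`) and `f = ∏ (X - C (algebraMap _ _ (r i)))`, natDegree `N`;
`√(p^m) = (√p)^m`.
`N = M + 1` even (`M` odd): let `a = r (last)`, `F = GaloisField p m`, `χ = quadraticChar F`, `r' i = algebraMap (r i)`, `a' = algebraMap a`.  `x ↦ y = 1/(x - a')` is a bijection of `F \ {a'}` onto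
`F \ {0}` and for `x = a' + 1/y`: `∏_{i : Fin (M+1)} (x - r' i) = (1/y) * ∏_{i : Fin M} ((a' - r' i) + 1/y) = y^(-(M+1)) * ∏_{i : Fin M} (1 + (a' - r' i) y)` and `M + 1` is even, so `χ` of it is
`χ(h(y))`, `h := ∏_{i : Fin M} (1 + C (a' - r' i) * X)`, natDegree `M` (`a' ≠ r' i`).  For `x = a'` the product is `0`.  So
`NS = ∑_{y ≠ 0} χ(h(y)) = ∑_y χ(h(y)) - 1` (`h(0) = 1`).  `stepanov M` gives `|∑_y χ(h(y))| ≤ C √(p^m)`, and `1 ≤ √(p^m)`.  (`Fin.prod_univ_castSucc`.) -/

set_option autoImplicit false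

open Polynomial Pool.Agent.H99.RM

namespace Pool.Agent.H48.HC

theorem evn_sum {F : Type} [Field F] [Fintype F] [DecidableEq F] {M : ℕ} (hM : Odd M)
    (s : Fin (M + 1) → F) :
    ∑ x : F, quadraticChar F (∏ i, (x - s i)) =
      ∑ y : F, quadraticChar F
        ((∏ i : Fin M, (1 + C (s (Fin.last M) - s i.castSucc) * X) : F[X]).eval y) - 1 := by
  set a := s (Fin.last M) with ha
  have h1 : ∑ x : F, quadraticChar F (∏ i, (x - s i)) =
      ∑ z : F, quadraticChar F (∏ i, (z + a - s i)) :=
    (Fintype.sum_equiv (Equiv.addRight a) _ _ (fun x => rfl)).symm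
  have h2 : ∑ z : F, quadraticChar F (∏ i, (z + a - s i)) =
      ∑ y : F, quadraticChar F (∏ i, (y⁻¹ + a - s i)) :=
    (Function.Involutive.toPerm (fun y : F => y⁻¹) inv_inv |> fun e =>
      (Fintype.sum_equiv e (fun y => quadraticChar F (∏ i, (e y + a - s i)))
        (fun z => quadraticChar F (∏ i, (z + a - s i))) (fun y => rfl)).symm)
  have h3 : (1 : ℤ) = ∑ y : F, if y = 0 then (1 : ℤ) else 0 := by simp
  rw [h1, h2]
  conv_rhs => rw [h3]
  rw [← Finset.sum_sub_distrib]
  refine Finset.sum_congr rfl fun y _ => ?_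
  by_cases hy : y = 0
  · subst hy
    simp [Fin.prod_univ_castSucc, eval_prod, ← ha]
  · rw [if_neg hy, sub_zero, Fin.prod_univ_castSucc, ← ha, eval_prod]
    have h4 : ∀ i : Fin M, y⁻¹ + a - s i.castSucc =
        y⁻¹ * (1 + C (a - s i.castSucc) * X : F[X]).eval y := by
      intro i
      simp only [eval_add, eval_one, eval_mul, eval_C, eval_X]
      field_simp
      ring
    rw [Finset.prod_congr rfl (fun i _ => h4 i), Finset.prod_mul_distrib, Finset.prod_const,
      Finset.card_univ, Fintype.card_fin]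
    have h5 : (y⁻¹ ^ M * (∏ i : Fin M, (1 + C (a - s i.castSucc) * X : F[X]).eval y)) *
        (y⁻¹ + a - a) =
        (y⁻¹) ^ (M + 1) * ∏ i : Fin M, (1 + C (a - s i.castSucc) * X : F[X]).eval y := by
      rw [add_sub_cancel_right, pow_succ]
      ring
    rw [h5, map_mul]
    obtain ⟨k, hk⟩ := hM
    have h6 : quadraticChar F ((y⁻¹) ^ (M + 1)) = 1 := by
      have : (y⁻¹) ^ (M + 1) = ((y⁻¹) ^ (k + 1)) ^ 2 := by
        rw [← pow_mul]
        congr 1
        omega
      rw [this]
      exact quadraticChar_sq_one' (pow_ne_zero _ (inv_ne_zero hy))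
    rw [h6, one_mul]

theorem evn_deg {F : Type} [Field F] {M : ℕ} (s : Fin (M + 1) → F)
    (hs : Function.Injective s) :
    (∏ i : Fin M, (1 + C (s (Fin.last M) - s i.castSucc) * X) : F[X]).natDegree = M := by
  have h1 : ∀ i : Fin M, (1 + C (s (Fin.last M) - s i.castSucc) * X : F[X]).natDegree = 1 := by
    intro i
    have hne : s (Fin.last M) - s i.castSucc ≠ 0 := by
      rw [sub_ne_zero]
      intro h
      exact absurd (hs h) (Fin.castSucc_lt_last i).ne'
    have : (1 + C (s (Fin.last M) - s i.castSucc) * X : F[X]) =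
        C (s (Fin.last M) - s i.castSucc) * X + C 1 := by
      rw [C_1, add_comm]
    rw [this]
    exact natDegree_linear hne
  rw [natDegree_prod _ _ (fun i _ h => by
    have := h1 i
    rw [h, natDegree_zero] at this
    omega)]
  rw [Finset.sum_congr rfl (fun i _ => h1 i)]
  simp

variable {p : ℕ} [Fact p.Prime] {N : ℕ}

theorem NG_bound (hp2 : p ≠ 2) (hN : 1 ≤ N) {r : Fin N → ZMod p} (hr : Function.Injective r) :
    ∃ B : ℝ, 0 < B ∧ ∀ m : ℕ, 1 ≤ m → |((NG p m r : ℤ) : ℝ)| ≤ B * (√(p : ℝ)) ^ m := by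
  have hp1 : (1 : ℝ) ≤ p := by exact_mod_cast (Fact.out : p.Prime).one_le
  have hsp : (1 : ℝ) ≤ √(p : ℝ) := Real.one_le_sqrt.mpr hp1
  have hpow : ∀ m : ℕ, √((p : ℝ) ^ m) = (√(p : ℝ)) ^ m := by
    intro m
    rw [Real.sqrt_eq_iff_mul_self_eq (by positivity) (by positivity), ← mul_pow,
      Real.mul_self_sqrt (by linarith)]
  rcases Nat.even_or_odd N with hev | hodd
  · obtain ⟨M, rfl⟩ : ∃ M, N = M + 1 := ⟨N - 1, by omega⟩
    have hM : Odd M := by
      rcases Nat.even_or_odd M with h | h
      · exact absurd hev (by rw [Nat.even_add_one]; simpa using h)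
      · exact h
    obtain ⟨B, hB, hst⟩ := stepanov M hM
    refine ⟨B + 1, by linarith, ?_⟩
    intro m hm
    classical
    let _ : Fintype (GaloisField p m) := Fintype.ofFinite (GaloisField p m)
    have hcard : Fintype.card (GaloisField p m) = p ^ m := by
      rw [← Nat.card_eq_fintype_card, GaloisField.card p m (by omega)]
    have hchar : ringChar (GaloisField p m) ≠ 2 := by
      rw [ringChar.eq (GaloisField p m) p]
      exact hp2
    have hinj : Function.Injective (fun i => algebraMap (ZMod p) (GaloisField p m) (r i)) :=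
      (algebraMap (ZMod p) (GaloisField p m)).injective.comp hr
    have h1 := hst (GaloisField p m) hchar _ (evn_deg _ hinj)
    have h2 : NG p m r = ∑ y : GaloisField p m, quadraticChar (GaloisField p m)
        ((∏ i : Fin M, (1 + C (algebraMap (ZMod p) (GaloisField p m) (r (Fin.last M)) -
          algebraMap (ZMod p) (GaloisField p m) (r i.castSucc)) * X) : (GaloisField p m)[X]).eval y)
          - 1 := by
      rw [← evn_sum hM (fun i => algebraMap (ZMod p) (GaloisField p m) (r i))]
      unfold NG NS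
      rfl
    rw [hcard] at h1
    push_cast at h1
    rw [hpow] at h1
    rw [h2]
    push_cast
    have h3 : (1 : ℝ) ≤ (√(p : ℝ)) ^ m := one_le_pow₀ hsp
    refine (abs_sub _ _).trans ?_
    rw [abs_one, add_mul, one_mul]
    exact add_le_add h1 h3
  · obtain ⟨B, hB, hst⟩ := stepanov N hodd
    refine ⟨B, hB, ?_⟩
    intro m hm
    classical
    let _ : Fintype (GaloisField p m) := Fintype.ofFinite (GaloisField p m)
    have hcard : Fintype.card (GaloisField p m) = p ^ m := by
      rw [← Nat.card_eq_fintype_card, GaloisField.card p m (by omega)]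
    have hchar : ringChar (GaloisField p m) ≠ 2 := by
      rw [ringChar.eq (GaloisField p m) p]
      exact hp2
    have hdeg : (∏ i : Fin N, (X - C (algebraMap (ZMod p) (GaloisField p m) (r i))) :
        (GaloisField p m)[X]).natDegree = N := by
      rw [natDegree_prod_of_monic _ _ (fun i _ => monic_X_sub_C _)]
      simp
    have h1 := hst (GaloisField p m) hchar _ hdeg
    have h2 : NG p m r = ∑ x : GaloisField p m, quadraticChar (GaloisField p m)
        ((∏ i : Fin N, (X - C (algebraMap (ZMod p) (GaloisField p m) (r i))) :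
        (GaloisField p m)[X]).eval x) := by
      unfold NG NS
      simp only [eval_prod, eval_sub, eval_X, eval_C]
    rw [hcard] at h1
    push_cast at h1
    rw [hpow] at h1
    rw [h2]
    push_cast
    exact h1

end Pool.Agent.H48.HC
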