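import Pool.Agent.H48.HC.PTW
import Pool.Agent.H7.OR.Spread

set_option autoImplicit false

open Polynomial NumberField IsDedekindDomain Pool.Agent.H7.OR

namespace Pool.Agent.H48.HC

theorem FIN_sep {p : ℕ} [Fact p.Prime] {N : ℕ} (c : ZMod p) (hc : c ≠ 0) (r : Fin N → ZMod p)
    (hr : Function.Injective r) : (C c * ∏ i, (X - C (r i))).Separable := by
  have h1 : (∏ i, (X - C (r i))).Separable := separable_prod_X_sub_C_iff.2 hr
  exact h1.unit_mul (isUnit_C.2 (isUnit_iff_ne_zero.2 hc))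

theorem FIN_mod8 (p : ℕ) [Fact p.Prime] (hp2 : p ≠ 2) (h1 : quadraticChar (ZMod p) (-1) = 1)
    (h2 : quadraticChar (ZMod p) 2 = 1) : p % 8 = 1 := by
  have hodd : p % 2 = 1 := by
    rcases (Fact.out : p.Prime).eq_two_or_odd with h | h
    · exact absurd h hp2
    · exact h
  have hne1 : (-1 : ZMod p) ≠ 0 := neg_ne_zero.2 one_ne_zero
  have hne2 : (2 : ZMod p) ≠ 0 := by
    intro h0
    have h3 : ((2 : ℕ) : ZMod p) = 0 := by exact_mod_cast h0
    rw [ZMod.natCast_eq_zero_iff] at h3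
    exact hp2 ((Nat.prime_dvd_prime_iff_eq Fact.out Nat.prime_two).1 h3)
  rw [quadraticChar_one_iff_isSquare hne1] at h1
  rw [quadraticChar_one_iff_isSquare hne2] at h2
  have h3 := ZMod.exists_sq_eq_neg_one_iff.1 h1
  have h4 := (ZMod.exists_sq_eq_two_iff hp2).1 h2
  omega

/-- all hyperelliptic curves over number fields with real multiplication (ranks 2 and 4) -/
theorem main {K : Type} [Field K] [NumberField K] {g : ℕ} (f : (𝓞 K)[X])
    (hdeg : f.natDegree = 2 * g + 1 ∨ f.natDegree = 2 * g + 2)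
    {L : Type} [Field L] [NumberField L] [Algebra K L] [IsGalois K L] (σ : L ≃ₐ[K] L)
    (e : Fin f.natDegree → L) (he : Function.Injective e)
    (hf : f.map (algebraMap (𝓞 K) L) = C (algebraMap (𝓞 K) L f.leadingCoeff) * ∏ i, (X - C (e i)))
    (hσe : ∀ i, σ (e i) = e i)
    (hσd : ∀ i j, i ≠ j → ∃ s : L, s ^ 2 = e i - e j ∧ σ s = s)
    (hσc : ∃ s : L, s ^ 2 = algebraMap (𝓞 K) L f.leadingCoeff ∧ σ s = s)
    (hσz : ∃ z : L, z ^ 4 = -1 ∧ σ z = z)
    {ι : Type} [Fintype ι] (F : ι → Type) [∀ j, Field (F j)] [∀ j, NumberField (F j)] [∀ j, IsTotallyReal (F j)]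
    (hF : ∀ j, Nat.card (F j →+* L) = Module.finrank ℚ (F j))
    (hσF : ∀ j, ∀ τ τ' : F j →+* L, ∃ n : ℤ, ∀ x, τ' x = (σ ^ n) (τ x))
    (hRM : ∃ B : ℕ, ∀ (p : ℕ) [Fact p.Prime] (π : 𝓞 K →+* ZMod p), B ≤ p →
      ∃ (P : ℤ[X]) (L : ∀ j, (𝓞 (F j))[X]), IsFrobPoly p g (f.map π) P ∧
        (∀ j, RankTwo p (L j) ∨ RankFour p (L j)) ∧
        P.map (Int.castRingHom ℂ) =
          ∏ j, ∏ τ : F j →+* ℂ, (L j).map (τ.comp (algebraMap (𝓞 (F j)) (F j)))) :
    PosDensity {v : HeightOneSpectrum (𝓞 K) | GoodOrdinaryAt g f v} := by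
  classical
  obtain ⟨B, hB⟩ := hRM
  have hf0 : f ≠ 0 := by
    rintro rfl
    rw [natDegree_zero] at hdeg
    omega
  have hs' : ∀ i j, ∃ s : L, i ≠ j → s ^ 2 = e i - e j ∧ σ s = s := by
    intro i j
    by_cases hij : i = j
    · exact ⟨0, fun h => absurd hij h⟩
    · obtain ⟨s, hs⟩ := hσd i j hij
      exact ⟨s, fun _ => hs⟩
  choose s hs using hs'
  obtain ⟨sc, hsc, hscσ⟩ := hσc
  obtain ⟨z, hz, hzσ⟩ := hσz
  have hz2 : ∀ k : Bool, (if k then z ^ 2 else z - z ^ 3) ^ 2 = (((if k then -1 else 2 : ℤ)) : L) := by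
    intro k
    cases k
    · simp only [Bool.false_eq_true, if_false]
      push_cast
      linear_combination (-2 + z ^ 2) * hz
    · simp only [if_true]
      push_cast
      linear_combination hz
  refine base_mono ?_ (spread f hf0 σ e he hf hσe s (fun i j hij => (hs i j hij).1) sc hsc
    (fun k : Bool => (if k then -1 else 2 : ℤ)) (by intro k; cases k <;> simp)
    (fun k : Bool => if k then z ^ 2 else z - z ^ 3) hz2 F hF hσF B)
  rintro v ⟨p, hp, π, r, hπ, hBp, hp2, hr, hc, hfac, hdiff, hlc, hzz, hprime⟩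
  obtain ⟨P, Lj, hP, hL, hprod⟩ := hB p π hBp.le
  have h1 : quadraticChar (ZMod p) (-1) = 1 := by
    have := hzz true
    simpa [hzσ, map_pow] using this
  have h2 : quadraticChar (ZMod p) 2 = 1 := by
    have := hzz false
    simpa [hzσ, map_pow, map_sub] using this
  have h8 := FIN_mod8 p hp2 h1 h2
  have hdeg' : (f.map π).natDegree = f.natDegree := by
    apply natDegree_map_of_leadingCoeff_ne_zero
    exact hc
  refine ⟨p, hp, π, hπ, hp2, ?_, ?_, P, hP, ?_⟩
  · rw [hfac]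
    exact FIN_sep _ hc r hr
  · rw [hdeg']
    exact hdeg
  · rw [hfac] at hP
    refine pointwise h8 hdeg (π f.leadingCoeff) ?_ r ?_ hP F hprime Lj hL hprod
    · rw [hlc, if_pos hscσ]
    · intro i j hij
      rw [hdiff i j hij, if_pos (hs i j hij).2]

end Pool.Agent.H48.HC
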