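import Mathlib

/-! ROW HLF (H48.HC): half-integrality.

PROOFS.
* `isIntegral_of_embedding`: `y : F`, `σ y` integral over `ℤ` implies `y` integral (`isIntegral_algHom_iff` with injective `σ` as a `ℤ`-algebra hom, `RingHom.toIntAlgHom`).
* `half_integral`: `P : ℤ[X]` monic of natDegree `D`, `P.comp (C 1 + C 2 * X) = C (2^D) * G`.  `G` is monic: compare leading coefficients (`P.comp (C 1 + C 2 * X)` has natDegree `D`
  and leading coefficient `2^D`, `natDegree_comp`, `leadingCoeff_comp`).  If `α ∈ ℂ` is a root of `P`, `v := (α - 1)/2`, then `2^D G(v) = P(1 + 2v) = P(α) = 0`, so `v` is a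
  root of the monic integer polynomial `G`: `IsIntegral ℤ v`.
* `dvd_eval`: `L : (𝓞 F)[X]` monic, `D = L.natDegree`, `σ : F →+* ℂ` such that for every root `α` of `Lσ := L.map (σ ∘ algebraMap)`, `(α - 1)/2` is integral.
  `Lσ = ∏ (X - C α)` over its roots (`D` of them).  `Lσ(1) = ∏ (1 - α) = 2^D ∏ ((1 - α)/2)` and `Lσ(-1) = ∏ (-1 - α) = 2^D ∏ (-(1 + (α-1)/2))`: so
  `σ (L(1) / 2^D)`, `σ (L(-1)/2^D)` are integral, and by `isIntegral_of_embedding` `L(±1)/2^D ∈ F` is integral, i.e. `L(±1) = 2^D * w` with `w ∈ 𝓞 F`. -/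

set_option autoImplicit false

open Polynomial NumberField

namespace Pool.Agent.H48.HC

theorem isIntegral_of_embedding {F : Type*} [Field F] [NumberField F] (y : F) (σ : F →+* ℂ) (h : IsIntegral ℤ (σ y)) :
    IsIntegral ℤ y := by
  have h2 : IsIntegral ℤ ((RingHom.toIntAlgHom σ) y) := h
  exact (isIntegral_algHom_iff (RingHom.toIntAlgHom σ) σ.injective).1 h2

theorem half_integral {P G : ℤ[X]} {D : ℕ} (hmon : P.Monic) (hdeg : P.natDegree = D)
    (hG : P.comp (C 1 + C 2 * X) = C ((2 : ℤ) ^ D) * G) {α : ℂ}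
    (hα : α ∈ (P.map (Int.castRingHom ℂ)).roots) : IsIntegral ℤ ((α - 1) / 2) := by
  have h1d : (C (1:ℤ) + C 2 * X : ℤ[X]).natDegree = 1 := by
    rw [add_comm]; exact natDegree_linear (by norm_num)
  have h1l : (C (1:ℤ) + C 2 * X : ℤ[X]).leadingCoeff = 2 := by
    rw [add_comm]; exact leadingCoeff_linear (by norm_num)
  have hl : (P.comp (C 1 + C 2 * X)).leadingCoeff = 2 ^ D := by
    rw [leadingCoeff_comp (by rw [h1d]; norm_num), hmon.leadingCoeff, h1l, hdeg, one_mul]
  have hGm : G.Monic := by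
    rw [hG, leadingCoeff_mul, leadingCoeff_C] at hl
    have h2 : (2:ℤ) ^ D ≠ 0 := by positivity
    have : (2:ℤ)^D * G.leadingCoeff = 2 ^ D * 1 := by rw [hl, mul_one]
    exact mul_left_cancel₀ h2 this
  refine ⟨G, hGm, ?_⟩
  have hroot : (P.map (Int.castRingHom ℂ)).eval α = 0 := by
    have := (mem_roots'.1 hα).2
    exact this
  have e1 : eval₂ (Int.castRingHom ℂ) ((α - 1) / 2) (P.comp (C 1 + C 2 * X)) = 0 := by
    rw [eval₂_comp, eval₂_add, eval₂_mul, eval₂_C, eval₂_C, eval₂_X]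
    have : (Int.castRingHom ℂ) 1 + (Int.castRingHom ℂ) 2 * ((α - 1) / 2) = α := by
      simp; ring
    rw [this, ← eval_map]; exact hroot
  rw [hG, eval₂_mul, eval₂_C] at e1
  have h3 : (Int.castRingHom ℂ) (2 ^ D) ≠ 0 := by
    simp
  have h4 := (mul_eq_zero.1 e1).resolve_left h3
  exact h4

theorem dvd_eval {F : Type*} [Field F] [NumberField F] (L : (𝓞 F)[X]) (hmon : L.Monic) (σ : F →+* ℂ)
    (h : ∀ α ∈ (L.map (σ.comp (algebraMap (𝓞 F) F))).roots, IsIntegral ℤ ((α - 1) / 2)) :
    (2 : 𝓞 F) ^ L.natDegree ∣ L.eval 1 ∧ (2 : 𝓞 F) ^ L.natDegree ∣ L.eval (-1) := by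
  set τ := σ.comp (algebraMap (𝓞 F) F) with hτ
  have hLm : (L.map τ).Monic := hmon.map τ
  have hsp : (L.map τ).Splits := IsAlgClosed.splits _
  have hprod : L.map τ = ((L.map τ).roots.map (fun a => X - C a)).prod := by
    have := hsp.eq_prod_roots
    rw [hLm.leadingCoeff, C_1, one_mul] at this
    exact this
  have hcard : Multiset.card (L.map τ).roots = L.natDegree := by
    have := hsp.natDegree_eq_card_roots
    rw [← this, hmon.natDegree_map]
  -- general claim
  have key : ∀ (x : 𝓞 F) (f : ℂ → ℂ), (∀ a, τ x - a = 2 * f a) → (∀ a ∈ (L.map τ).roots, IsIntegral ℤ (f a)) →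
      (2 : 𝓞 F) ^ L.natDegree ∣ L.eval x := by
    intro x f hf hi
    have e1 : τ (L.eval x) = 2 ^ L.natDegree * ((L.map τ).roots.map f).prod := by
      rw [← eval_map_apply]
      conv_lhs => rw [hprod]
      rw [eval_multiset_prod, Multiset.map_map]
      have : (Multiset.map (eval (τ x) ∘ fun a => X - C a) (L.map τ).roots) = Multiset.map (fun a => 2 * f a) (L.map τ).roots := by
        apply Multiset.map_congr rfl
        intro a _
        simp [← hf a]
      rw [this, Multiset.prod_map_mul, Multiset.map_const', Multiset.prod_replicate, hcard]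
    have hint : IsIntegral ℤ ((L.map τ).roots.map f).prod := by
      apply IsIntegral.multiset_prod
      intro y hy
      obtain ⟨a, ha, rfl⟩ := Multiset.mem_map.1 hy
      exact hi a ha
    have e2 : σ ((algebraMap (𝓞 F) F (L.eval x)) / 2 ^ L.natDegree) = ((L.map τ).roots.map f).prod := by
      rw [map_div₀, map_pow, map_ofNat]
      have : σ ((algebraMap (𝓞 F) F) (L.eval x)) = τ (L.eval x) := rfl
      rw [this, e1]
      field_simp
    have hy : IsIntegral ℤ ((algebraMap (𝓞 F) F (L.eval x)) / 2 ^ L.natDegree) :=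
      isIntegral_of_embedding _ σ (by rw [e2]; exact hint)
    obtain ⟨w, hw⟩ : ∃ w : 𝓞 F, algebraMap (𝓞 F) F w = (algebraMap (𝓞 F) F (L.eval x)) / 2 ^ L.natDegree :=
      ⟨⟨_, hy⟩, rfl⟩
    refine ⟨w, ?_⟩
    apply RingOfIntegers.coe_injective
    have h2 : (2 : F) ^ L.natDegree ≠ 0 := pow_ne_zero _ two_ne_zero
    rw [eq_div_iff h2] at hw
    rw [map_mul, map_pow, map_ofNat, hw.symm]
    ring
  constructor
  · apply key 1 (fun a => -((a - 1) / 2))
    · intro a; rw [map_one]; ring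
    · intro a ha
      exact (h a ha).neg
  · apply key (-1) (fun a => -(1 + (a - 1) / 2))
    · intro a; rw [map_neg, map_one]; ring
    · intro a ha
      exact (isIntegral_one.add (h a ha)).neg

end Pool.Agent.H48.HC
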