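import Pool.Agent.H48.HC.PF
import Pool.Agent.H99.RM.Nid
import Pool.Agent.H99.RM.Nwt

/-! ROW NEP (H48.HC): a Frobenius polynomial is `Pol r univ`.

* `roots_fin`: a monic integer polynomial `P` of natDegree `D`: there is `α : Fin D → ℂ` with `P.map = ∏ (X - C (α i))`, `(roots.map f).sum = ∑ i, f (α i)` for all `f : ℂ → ℂ`, and
  `x ∈ roots ↔ ∃ i, α i = x` (list of the roots: `Multiset.toList`, `List.get`, `card roots = D` over the algebraically closed field `ℂ`; `List.prod_ofFn`, `List.sum_ofFn`).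
* `reflect_prod`: `reflect D (∏_{i : Fin D} (1 - C (α i) * X)) = ∏_{i : Fin D} (X - C (α i))` in `ℂ[X]` (induction on `D`, `Fin.prod_univ_succ`, `reflect_mul`,
  `natDegree (1 - C a * X) ≤ 1`, `reflect 1 (1 - C a * X) = X - C a`).
PROOF of `eq_Pol`.  `S = univ`, `|S| = N ≥ 1`.  `P.map = ∏_{i : Fin (2 gen N)} (X - C (α i))`.  Let `δ = ev N ∈ {0,1}`, `β : Fin (2 gen N + δ) → ℂ` be `α` followed by `1` if `δ = 1`
(`Fin.snoc` / `Fin.append α (fun _ => 1)`), so `∑ β_i^m = ∑ α_i^m + δ`, `∏ (X - C β_i) = (P.map) * (X - C 1)^δ`.  By `newton` (cast to `ℂ`) and the hypothesis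
`k A_k = ∑_{m=1}^k NG p m r A_{k-m} = - ∑_m (∑ β_i^m) A_{k-m}`, `A_k = AS r univ ∅ k`, `A_0 = 1`.  `nid_prod` and `nid_unique` give `A_k = (∏ (1 - C β_i X)).coeff k` for all `k`.
So `(Aser r univ).map = ∏ (1 - C β_i * X)` (`Aser_coeff`); `2 gen N + δ = N - 1`; apply `reflect (N-1)`: `(Apoly r univ).map = ∏ (X - C β_i) = P.map * (X - C 1)^δ`
(`reflect_Aser`, `reflect_prod`, `reflect_map`).  With `Pol_mul`: `(X - C 1)^δ * Pol.map = (X - C 1)^δ * P.map`; cancel; `Polynomial.map_injective` (`Int.cast` to `ℂ`). -/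

set_option autoImplicit false

open Polynomial Pool.Agent.H99.RM

namespace Pool.Agent.H48.HC

variable {p : ℕ} [Fact p.Prime] {N : ℕ}

theorem roots_fin {P : ℤ[X]} (hmon : P.Monic) {D : ℕ} (hdeg : P.natDegree = D) :
    ∃ α : Fin D → ℂ, P.map (Int.castRingHom ℂ) = ∏ i, (X - C (α i)) ∧
      (∀ f : ℂ → ℂ, ((P.map (Int.castRingHom ℂ)).roots.map f).sum = ∑ i, f (α i)) ∧
      ∀ x : ℂ, x ∈ (P.map (Int.castRingHom ℂ)).roots ↔ ∃ i, α i = x := by
  set Q := P.map (Int.castRingHom ℂ) with hQ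
  have hQm : Q.Monic := hmon.map _
  have hQd : Q.natDegree = D := by rw [hQ, hmon.natDegree_map, hdeg]
  have hsp : Q.Splits := IsAlgClosed.splits Q
  have hcard : Multiset.card Q.roots = D := by rw [← hQd]; exact hsp.natDegree_eq_card_roots.symm
  obtain ⟨l, hl⟩ := Quot.exists_rep Q.roots
  have hl' : Q.roots = (l : Multiset ℂ) := hl.symm
  have hlen : l.length = D := by rw [← hcard, hl', Multiset.coe_card]
  subst hlen
  refine ⟨l.get, ?_, ?_, ?_⟩
  · have h1 : Q = (Q.roots.map (fun a => X - C a)).prod := hsp.eq_prod_roots_of_monic hQm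
    rw [h1, hl', Multiset.map_coe, Multiset.prod_coe]
    exact (Fin.prod_univ_fun_getElem l (fun a => X - C a)).symm
  · intro f
    rw [hl', Multiset.map_coe, Multiset.sum_coe]
    exact (Fin.sum_univ_fun_getElem l f).symm
  · intro x
    rw [hl', Multiset.mem_coe, List.mem_iff_get]

theorem reflect_prod {D : ℕ} (α : Fin D → ℂ) :
    reflect D (∏ i, (1 - C (α i) * X) : ℂ[X]) = ∏ i, (X - C (α i)) := by
  have hd1 : ∀ a : ℂ, (1 - C a * X : ℂ[X]).natDegree ≤ 1 := by
    intro a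
    refine (natDegree_sub_le _ _).trans ?_
    rw [natDegree_one]
    exact max_le (Nat.zero_le _) ((natDegree_C_mul_le _ _).trans natDegree_X_le)
  induction D with
  | zero => simp
  | succ D ih =>
    rw [Fin.prod_univ_succ, Fin.prod_univ_succ]
    have h1 : reflect (D + 1) ((1 - C (α 0) * X) * ∏ i : Fin D, (1 - C (α i.succ) * X) : ℂ[X]) =
        reflect (1 + D) ((1 - C (α 0) * X) * ∏ i : Fin D, (1 - C (α i.succ) * X) : ℂ[X]) :=
      congrArg (fun n => reflect n ((1 - C (α 0) * X) * ∏ i : Fin D, (1 - C (α i.succ) * X) : ℂ[X])) (add_comm D 1)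
    rw [h1, reflect_mul _ _ (hd1 _), ih]
    · congr 1
      rw [reflect_sub, reflect_C_mul, reflect_one_X, reflect_one]
      simp
    · refine (natDegree_prod_le _ _).trans ?_
      calc ∑ i : Fin D, (1 - C (α i.succ) * X : ℂ[X]).natDegree ≤ ∑ i : Fin D, 1 :=
            Finset.sum_le_sum fun i _ => hd1 _
        _ = D := by simp

theorem eq_Pol (hp4 : p % 4 = 1) (hN : 1 ≤ N) {r : Fin N → ZMod p} (hr : Function.Injective r) {P : ℤ[X]} (hmon : P.Monic)
    (hdeg : P.natDegree = 2 * gen N)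
    (h : ∀ m : ℕ, 1 ≤ m → ((NG p m r : ℤ) : ℂ) =
      -((ev N : ℂ) + ((P.map (Int.castRingHom ℂ)).roots.map (fun α => α ^ m)).sum)) : P = Pol r Finset.univ := by
  have hp2 : p ≠ 2 := by rintro rfl; omega
  have hne : (Finset.univ : Finset (Fin N)).Nonempty := ⟨⟨0, by omega⟩, Finset.mem_univ _⟩
  obtain ⟨α, hα1, hα2, -⟩ := roots_fin hmon hdeg
  set β : Fin (2 * gen N + ev N) → ℂ := Fin.append α (fun _ : Fin (ev N) => 1) with hβ
  have hs : ∀ m : ℕ, ∑ i, β i ^ m = (ev N : ℂ) +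
      ((P.map (Int.castRingHom ℂ)).roots.map (fun α => α ^ m)).sum := by
    intro m
    rw [hα2, Fin.sum_univ_add]
    simp only [hβ, Fin.append_left, Fin.append_right, one_pow]
    simp [add_comm]
  have hprod : ∏ i, (X - C (β i)) = P.map (Int.castRingHom ℂ) * (X - C 1) ^ ev N := by
    rw [hα1, Fin.prod_univ_add]
    simp only [hβ, Fin.append_left, Fin.append_right]
    simp
  have hcoef : ∀ k : ℕ, ((AS r Finset.univ ∅ k : ℤ) : ℂ) = (∏ i, (1 - C (β i) * X) : ℂ[X]).coeff k := by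
    intro k
    refine nid_unique (fun m => ∑ i, β i ^ m) (fun k => ((AS r Finset.univ ∅ k : ℤ) : ℂ))
      (fun k => (∏ i, (1 - C (β i) * X) : ℂ[X]).coeff k) k ?_ ?_ ?_ ?_ ?_ k le_rfl
    · intro k hk _
      exact_mod_cast (by omega : k ≠ 0)
    · simp only [AS_at_zero, Int.cast_one]
    · simp only [coeff_zero_eq_eval_zero, eval_prod]
      simp
    · intro k hk _
      have h1 := newton p hp4 r k
      have h2 : ((k : ℤ) * AS r Finset.univ ∅ k : ℤ) = ((∑ m ∈ Finset.Icc 1 k, NG p m r * AS r Finset.univ ∅ (k - m) : ℤ) : ℂ) := by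
        rw [← h1]
      push_cast at h2
      rw [h2, ← Finset.sum_neg_distrib]
      refine Finset.sum_congr rfl fun m hm => ?_
      rw [Finset.mem_Icc] at hm
      rw [h m hm.1, hs m]
      ring
    · intro k hk _
      exact nid_prod β k
  have hAser : (Aser r Finset.univ).map (Int.castRingHom ℂ) = ∏ i, (1 - C (β i) * X) := by
    ext k
    rw [coeff_map, Aser_coeff hp2 hr hne k, ← hcoef k, eq_intCast]
  have hc : (Finset.univ : Finset (Fin N)).card - 1 = 2 * gen N + ev N := by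
    rw [Finset.card_univ, Fintype.card_fin, two_gen_add_ev hN]
  have hA : (Apoly r Finset.univ).map (Int.castRingHom ℂ) =
      P.map (Int.castRingHom ℂ) * (X - C 1) ^ ev N := by
    rw [← reflect_Aser r hne, ← reflect_map, hAser, hc, reflect_prod, hprod]
  have hP := congrArg (Polynomial.map (Int.castRingHom ℂ)) (Pol_mul hp2 hr hne)
  rw [hA, Polynomial.map_mul, Polynomial.map_pow, Polynomial.map_sub, map_X, map_C, map_one,
    Finset.card_univ, Fintype.card_fin, mul_comm] at hP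
  have hX : ((X - C 1 : ℂ[X]) ^ ev N) ≠ 0 := pow_ne_zero _ (X_sub_C_ne_zero 1)
  have h3 := mul_right_cancel₀ hX hP
  exact (Polynomial.map_injective (Int.castRingHom ℂ) (RingHom.injective_int _) h3).symm

end Pool.Agent.H48.HC
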