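import Pool.Agent.H48.HC.SCL
import Pool.Agent.H99.RM.Rec

/-! ROW PF (H48.HC): basic facts on `Pol r S`, `S` nonempty.

PROOFS.  `AS r S ∅ 0 = 1` (`AS_at_zero`), `AS r S ∅ k = 0` for `k ≥ |S|` (`AS_zero` with `B = ∅`; `ringChar (ZMod p) = p ≠ 2`).
* `Apoly_monic`, `Apoly_natDegree`: `Apoly = X^(s-1) + (terms of degree < s-1)` (`Finset.sum_range_succ'`).
* `Pol_mul`: `|S|` even: `(Apoly r S).eval 1 = ∑_k AS r S ∅ k = 0` (`sum_AS_even`), `mul_divByMonic_eq_iff_isRoot`; odd: `ev = 0`, trivial.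
* `Pol_monic`, `Pol_natDegree`: from `Pol_mul` (`Monic.of_mul_monic_left`, `Monic.natDegree_mul`, `two_gen_add_ev`).
* `reflect_Aser`: `reflect_C_mul_X_pow`, `revAt_le`.
* `Aser_coeff`: for all `k`. -/

set_option autoImplicit false

open Polynomial Pool.Agent.H99.RM

namespace Pool.Agent.H48.HC

variable {p : ℕ} [Fact p.Prime] {N : ℕ}

theorem PF_split (r : Fin N → ZMod p) {S : Finset (Fin N)} (hS : S.Nonempty) :
    ∃ Q : ℤ[X], Apoly r S = X ^ (S.card - 1) + Q ∧ Q.degree < ((S.card - 1 : ℕ) : WithBot ℕ) := by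
  have h1 := hS.card_pos
  obtain ⟨m, hm⟩ : ∃ m, S.card = m + 1 := ⟨S.card - 1, by omega⟩
  refine ⟨∑ k ∈ Finset.range m, C (AS r S ∅ (k + 1)) * X ^ (m - (k + 1)), ?_, ?_⟩
  · unfold Apoly
    rw [hm, Finset.sum_range_succ', AS_at_zero]
    simp only [Nat.add_sub_cancel, Nat.sub_zero, map_one, one_mul]
    rw [add_comm]
  · rw [hm, Nat.add_sub_cancel, ← mem_degreeLT]
    refine Submodule.sum_mem _ fun k hk => ?_
    rw [mem_degreeLT]
    have hk' := Finset.mem_range.1 hk
    refine lt_of_le_of_lt (degree_C_mul_X_pow_le _ _) ?_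
    exact_mod_cast (by omega : m - (k + 1) < m)

theorem Apoly_monic (r : Fin N → ZMod p) {S : Finset (Fin N)} (hS : S.Nonempty) : (Apoly r S).Monic := by
  obtain ⟨Q, h1, h2⟩ := PF_split r hS
  rw [h1]
  exact monic_X_pow_add h2

theorem Apoly_natDegree (r : Fin N → ZMod p) {S : Finset (Fin N)} (hS : S.Nonempty) :
    (Apoly r S).natDegree = S.card - 1 := by
  obtain ⟨Q, h1, h2⟩ := PF_split r hS
  rw [h1]
  refine natDegree_eq_of_degree_eq_some ?_
  rw [degree_add_eq_left_of_degree_lt (by rw [degree_X_pow]; exact h2), degree_X_pow]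

theorem Pol_mul (hp2 : p ≠ 2) {r : Fin N → ZMod p} (hr : Function.Injective r) {S : Finset (Fin N)} (hS : S.Nonempty) :
    (X - C 1) ^ ev S.card * Pol r S = Apoly r S := by
  unfold ev Pol
  by_cases he : Even S.card
  · rw [if_pos he, if_pos he, pow_one, mul_divByMonic_eq_iff_isRoot]
    have h := sum_AS_even hp2 hr hS he
    unfold Apoly
    rw [IsRoot, eval_finsetSum]
    rw [← h]
    refine Finset.sum_congr rfl fun k _ => ?_
    simp
  · rw [if_neg he, if_neg he, pow_zero, one_mul]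

theorem Pol_monic (hp2 : p ≠ 2) {r : Fin N → ZMod p} (hr : Function.Injective r) {S : Finset (Fin N)} (hS : S.Nonempty) :
    (Pol r S).Monic := by
  have h1 := Apoly_monic r hS
  rw [← Pol_mul hp2 hr hS] at h1
  exact ((monic_X_sub_C (1 : ℤ)).pow _).of_mul_monic_left h1

theorem Pol_natDegree (hp2 : p ≠ 2) {r : Fin N → ZMod p} (hr : Function.Injective r) {S : Finset (Fin N)}
    (hS : S.Nonempty) : (Pol r S).natDegree = 2 * gen S.card := by
  have h1 := Apoly_natDegree r hS
  have h2 := two_gen_add_ev (n := S.card) hS.card_pos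
  rw [← Pol_mul hp2 hr hS, ((monic_X_sub_C (1 : ℤ)).pow _).natDegree_mul (Pol_monic hp2 hr hS),
    (monic_X_sub_C (1 : ℤ)).natDegree_pow, natDegree_X_sub_C, mul_one] at h1
  omega

theorem PF_reflect_sum (n : ℕ) (s : Finset ℕ) (f : ℕ → ℤ[X]) :
    reflect n (∑ i ∈ s, f i) = ∑ i ∈ s, reflect n (f i) := by
  classical
  induction s using Finset.induction_on with
  | empty => simp
  | insert a s ha ih => rw [Finset.sum_insert ha, Finset.sum_insert ha, reflect_add, ih]

theorem reflect_Aser (r : Fin N → ZMod p) {S : Finset (Fin N)} (hS : S.Nonempty) :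
    reflect (S.card - 1) (Aser r S) = Apoly r S := by
  unfold Aser Apoly
  rw [PF_reflect_sum]
  refine Finset.sum_congr rfl fun k hk => ?_
  have hk' := Finset.mem_range.1 hk
  rw [reflect_C_mul_X_pow, revAt_le (by omega)]

theorem Aser_coeff (hp2 : p ≠ 2) {r : Fin N → ZMod p} (hr : Function.Injective r) {S : Finset (Fin N)} (hS : S.Nonempty)
    (k : ℕ) : (Aser r S).coeff k = AS r S ∅ k := by
  unfold Aser
  rw [finsetSum_coeff]
  simp only [coeff_C_mul_X_pow]
  rw [Finset.sum_ite_eq]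
  by_cases hk : k < S.card
  · rw [if_pos (Finset.mem_range.2 hk)]
  · rw [if_neg (fun h => hk (Finset.mem_range.1 h))]
    symm
    refine AS_zero ?_ r hr hS (Finset.disjoint_empty_right _) ?_
    · rw [ZMod.ringChar_zmod_n]
      exact hp2
    · rw [Finset.card_empty]
      omega

theorem Aser_natDegree_le (r : Fin N → ZMod p) (S : Finset (Fin N)) : (Aser r S).natDegree ≤ S.card - 1 := by
  unfold Aser
  refine natDegree_sum_le_of_forall_le _ _ fun k hk => ?_
  have hk' := Finset.mem_range.1 hk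
  exact (natDegree_C_mul_X_pow_le _ _).trans (by omega)

end Pool.Agent.H48.HC
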