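import Pool.Agent.H48.HC.NEP
import Pool.Agent.H48.HC.EVN
import Pool.Agent.H99.RM.Pwr

/-! ROW RHY (H48.HC): Riemann hypothesis.

PROOF.  `roots_fin`: `α : Fin D → ℂ` with `∑_i α_i^m = (roots.map (· ^ m)).sum = -(NG p m r) - ev N`, so `‖∑_i α_i^m‖ ≤ B (√p)^m + 1 ≤ (B+1) (√p)^m` for `m ≥ 1` (`NG_bound`, `1 ≤ √p`).
`pwr_main α (B+1) (√p)`: `‖α_i‖ ≤ √p`, so `‖α‖^2 ≤ p`. -/

set_option autoImplicit false

open Polynomial Pool.Agent.H99.RM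

namespace Pool.Agent.H48.HC

variable {p : ℕ} [Fact p.Prime] {N : ℕ}

theorem RH (hp2 : p ≠ 2) (hN : 1 ≤ N) {r : Fin N → ZMod p} (hr : Function.Injective r) {P : ℤ[X]} (hmon : P.Monic)
    (h : ∀ m : ℕ, 1 ≤ m → ((NG p m r : ℤ) : ℂ) =
      -((ev N : ℂ) + ((P.map (Int.castRingHom ℂ)).roots.map (fun α => α ^ m)).sum)) :
    ∀ α ∈ (P.map (Int.castRingHom ℂ)).roots, ‖α‖ ^ 2 ≤ (p : ℝ) := by
  intro a ha
  obtain ⟨α, -, hsum, hmem⟩ := roots_fin hmon (rfl : P.natDegree = P.natDegree)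
  obtain ⟨i, rfl⟩ := (hmem a).1 ha
  obtain ⟨B, hB, hNG⟩ := NG_bound hp2 hN hr
  have hp1 : (1 : ℝ) ≤ (p : ℝ) := by exact_mod_cast (Fact.out : p.Prime).one_lt.le
  have hs1 : 1 ≤ √(p : ℝ) := by
    rw [← Real.sqrt_one]
    exact Real.sqrt_le_sqrt hp1
  have key : ‖α i‖ ≤ √(p : ℝ) := by
    refine pwr_main α (B + 1) (√(p : ℝ)) (by linarith) ?_ i
    intro m hm
    have h1 := h m hm
    rw [hsum] at h1
    have h2 : ∑ j, α j ^ m = -((NG p m r : ℤ) : ℂ) - (ev N : ℂ) := by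
      rw [h1]; ring
    rw [h2]
    have h3 : ‖(ev N : ℂ)‖ ≤ 1 := by
      unfold ev
      split_ifs <;> simp
    have h4 : ‖((NG p m r : ℤ) : ℂ)‖ ≤ B * (√(p : ℝ)) ^ m := by
      have := hNG m hm
      rw [Complex.norm_intCast]
      exact this
    have h5 : (1 : ℝ) ≤ (√(p : ℝ)) ^ m := one_le_pow₀ hs1
    calc ‖-((NG p m r : ℤ) : ℂ) - (ev N : ℂ)‖ ≤ ‖-((NG p m r : ℤ) : ℂ)‖ + ‖(ev N : ℂ)‖ := norm_sub_le _ _
      _ ≤ B * (√(p : ℝ)) ^ m + 1 := by rw [norm_neg]; linarith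
      _ ≤ (B + 1) * (√(p : ℝ)) ^ m := by nlinarith
  calc ‖α i‖ ^ 2 ≤ (√(p : ℝ)) ^ 2 := by gcongr
    _ = (p : ℝ) := Real.sq_sqrt (by linarith)

end Pool.Agent.H48.HC
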