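import Pool.Agent.H48.HC.CII
import Pool.Agent.H48.HC.CNT
import Pool.Agent.H48.HC.RHY
import Pool.Agent.H48.HC.ABS

set_option autoImplicit false

open Polynomial NumberField IsDedekindDomain Pool.Agent.H99.RM

namespace Pool.Agent.H48.HC

/-- pointwise theorem over `F_p` -/
theorem pointwise {p : ℕ} [Fact p.Prime] (h8 : p % 8 = 1) {g N : ℕ} (hN : N = 2 * g + 1 ∨ N = 2 * g + 2)
    (c : ZMod p) (hc : quadraticChar (ZMod p) c = 1) (r : Fin N → ZMod p)
    (hr : ∀ i j, i ≠ j → quadraticChar (ZMod p) (r i - r j) = 1) {P : ℤ[X]}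
    (hP : IsFrobPoly p g (C c * ∏ i, (X - C (r i))) P)
    {ι : Type} [Fintype ι] (F : ι → Type) [∀ j, Field (F j)] [∀ j, NumberField (F j)] [∀ j, IsTotallyReal (F j)]
    (hprime : ∀ j, (Ideal.span {(p : 𝓞 (F j))}).IsPrime) (L : ∀ j, (𝓞 (F j))[X])
    (hL : ∀ j, RankTwo p (L j) ∨ RankFour p (L j))
    (hfac : P.map (Int.castRingHom ℂ) =
      ∏ j, ∏ σ : F j →+* ℂ, (L j).map (σ.comp (algebraMap (𝓞 (F j)) (F j)))) :
    ¬ (p : ℤ) ∣ P.coeff g := by
  have hp : p.Prime := Fact.out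
  have hp2 : p ≠ 2 := by rintro rfl; omega
  have hSq : SqD r := hr
  have hN1 : 1 ≤ N := by omega
  have hgen : gen N = g := by unfold gen; omega
  have hne : (Finset.univ : Finset (Fin N)).Nonempty := ⟨⟨0, by omega⟩, Finset.mem_univ _⟩
  have hcard : (Finset.univ : Finset (Fin N)).card = N := by simp
  have hprime' : ∀ j, Prime ((p : ℕ) : 𝓞 (F j)) := by
    intro j
    have h0 : (p : 𝓞 (F j)) ≠ 0 := by exact_mod_cast hp.ne_zero
    exact (Ideal.span_singleton_prime h0).mp (hprime j)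
  have hNG : ∀ m : ℕ, 1 ≤ m → ((NG p m r : ℤ) : ℂ) =
      -((ev N : ℂ) + ((P.map (Int.castRingHom ℂ)).roots.map (fun α => α ^ m)).sum) := by
    intro m hm
    have h1 := curvePoints_eq hp2 hN hc r hm
    have h2 := hP.2.2 m hm
    have h3 : (curvePoints p g (C c * ∏ i, (X - C (r i))) m : ℂ) =
        (((curvePoints p g (C c * ∏ i, (X - C (r i))) m : ℤ)) : ℂ) := by push_cast; rfl
    rw [h3, h1] at h2
    push_cast at h2
    linear_combination h2
  have hPeq : P = Pol r Finset.univ :=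
    eq_Pol (by omega) hN1 hSq.inj hP.1 (by rw [hgen]; exact hP.2.1) hNG
  have hRH := RH hp2 hN1 hSq.inj hP.1 hNG
  have h1 := levelOne hp2 hSq hne
  have h2 := exactNegOne (by omega) hSq hne
  rw [← hPeq, hcard, hgen] at h1 h2
  exact ordinary_abstract hp h8 hP.1 hP.2.1 hRH h1 h2 F hprime' L hL hfac

end Pool.Agent.H48.HC
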