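import Pool.Agent.H48.HC.D2
import Pool.Agent.H99.RM.Mon
import Pool.Agent.H99.RM.Van

/-! ROW SCL (H48.HC): `∑_{k<|S|} A_k(S) = 0` for `|S|` even.

PROOF.  Let `s = |S| ≥ 2` even, `i₀ ∈ S`.  For `c : Fin s → ZMod p` let `h_c := ∑ i, C (c i) * X ^ i` (all polynomials of degree `< s`), `F(c) := ∏_{i∈S} χ (h_c(r i))`.
(1) `∑_c F(c) = 0`: as in the proof of `AS_zero` (module Van of H99/RM): with `L = Lagrange.basis S r i₀` (degree `s - 1 < s`, value `1` at `r i₀`, `0` at the other `r j`, `j ∈ S`)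
    the substitution `c i ↦ c i + t * L.coeff i` gives `∑_c F(c) = ∑_c F(c + tL)` for every `t`, and `∑_t F(c + tL) = (∑_t χ (h_c(r i₀) + t)) * ∏_{i ∈ S, i ≠ i₀} χ(h_c (r i)) = 0`
    (`van_sum`).  So `p * ∑_c F(c) = 0`.
(2) `F(0) = 0` (`S` nonempty).  Every `c ≠ 0` is uniquely `h_c = C a * mon c'` with `a ≠ 0` (leading coefficient) and `c' : Fin k → ZMod p`, `k = natDegree h_c < s`; then
    `F(c) = χ(a)^s ∏_{i∈S} χ ((mon c')(r i)) = ∏_{i∈S} χ ((mon c')(r i))` (`χ(a) = ±1`, `s` even).  So `∑_{c≠0} F(c) = (p - 1) * ∑_{k<s} AS r S ∅ k`.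
    (Bijection from `{(a, k, c') : a ≠ 0, k < s, c' : Fin k → ZMod p}`; e.g. `Finset.sum_sigma'` and `Finset.sum_bij'`, `mon_eq`, `mon_inj`; `AS` with `B = ∅` is
    `∑_{c'} ∏_{i∈S} χ(...)` since the second product is empty.)
So `(p - 1) * ∑ = 0`, and `p - 1 ≠ 0`. -/

set_option autoImplicit false

open Polynomial Pool.Agent.H99.RM

namespace Pool.Agent.H48.HC

variable {p : ℕ} [Fact p.Prime] {N : ℕ}

/-- evaluation of the polynomial with coefficient vector `c` -/
def scl_E {m : ℕ} (c : Fin m → ZMod p) (x : ZMod p) : ZMod p := ∑ i, c i * x ^ (i : ℕ)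

def scl_T (r : Fin N → ZMod p) (S : Finset (Fin N)) (m : ℕ) : ℤ :=
  ∑ c : Fin m → ZMod p, ∏ i ∈ S, quadraticChar (ZMod p) (scl_E c (r i))

theorem scl_snoc {m : ℕ} (a : ZMod p) (c : Fin m → ZMod p) (x : ZMod p) :
    scl_E (Fin.snoc (α := fun _ => ZMod p) c a) x = scl_E c x + a * x ^ m := by
  unfold scl_E
  rw [Fin.sum_univ_castSucc]
  simp

theorem scl_mon {m : ℕ} {a : ZMod p} (ha : a ≠ 0) (c : Fin m → ZMod p) (x : ZMod p) :
    scl_E c x + a * x ^ m = a * (mon (fun i => a⁻¹ * c i)).eval x := by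
  rw [van_eval]
  unfold scl_E
  rw [mul_add, Finset.mul_sum, add_comm]
  congr 1
  refine Finset.sum_congr rfl fun i _ => ?_
  rw [← mul_assoc, ← mul_assoc, mul_inv_cancel₀ ha, one_mul]

theorem scl_step {r : Fin N → ZMod p} {S : Finset (Fin N)} (he : Even S.card) (m : ℕ) :
    scl_T r S (m + 1) = scl_T r S m + ((p : ℤ) - 1) * AS r S ∅ m := by
  classical
  have h1 : scl_T r S (m + 1) = ∑ a : ZMod p, ∑ c : Fin m → ZMod p,
      ∏ i ∈ S, quadraticChar (ZMod p) (scl_E c (r i) + a * (r i) ^ m) := by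
    unfold scl_T
    rw [← Equiv.sum_comp (Fin.snocEquiv (fun _ : Fin (m + 1) => ZMod p)), Fintype.sum_prod_type]
    refine Finset.sum_congr rfl fun a _ => Finset.sum_congr rfl fun c _ =>
      Finset.prod_congr rfl fun i _ => ?_
    congr 1
    exact scl_snoc a c (r i)
  have h2 : ∀ a : ZMod p, a ≠ 0 → ∑ c : Fin m → ZMod p,
      ∏ i ∈ S, quadraticChar (ZMod p) (scl_E c (r i) + a * (r i) ^ m) = AS r S ∅ m := by
    intro a ha
    have h3 : ∀ c : Fin m → ZMod p,
        ∏ i ∈ S, quadraticChar (ZMod p) (scl_E c (r i) + a * (r i) ^ m) =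
        (fun c : Fin m → ZMod p => ∏ i ∈ S, quadraticChar (ZMod p) ((mon c).eval (r i)))
          (Equiv.piCongrRight (fun _ : Fin m => Equiv.mulLeft₀ a⁻¹ (inv_ne_zero ha)) c) := by
      intro c
      have h4 : ∀ i ∈ S, quadraticChar (ZMod p) (scl_E c (r i) + a * (r i) ^ m) =
          quadraticChar (ZMod p) a *
            quadraticChar (ZMod p) ((mon (fun i => a⁻¹ * c i)).eval (r i)) := by
        intro i _
        rw [scl_mon ha, map_mul]
      rw [Finset.prod_congr rfl h4, Finset.prod_mul_distrib, Finset.prod_const]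
      obtain ⟨k, hk⟩ := he
      rw [hk, ← two_mul, pow_mul, quadraticChar_sq_one ha, one_pow, one_mul]
      rfl
    rw [Finset.sum_congr rfl fun c _ => h3 c]
    refine (Equiv.sum_comp (Equiv.piCongrRight
      (fun _ : Fin m => Equiv.mulLeft₀ a⁻¹ (inv_ne_zero ha)))
      (fun c : Fin m → ZMod p => ∏ i ∈ S, quadraticChar (ZMod p) ((mon c).eval (r i)))).trans ?_
    unfold AS
    refine Finset.sum_congr rfl fun c _ => ?_
    simp
  have h5 : ∑ c : Fin m → ZMod p,
      ∏ i ∈ S, quadraticChar (ZMod p) (scl_E c (r i) + 0 * (r i) ^ m) = scl_T r S m := by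
    unfold scl_T
    refine Finset.sum_congr rfl fun c _ => Finset.prod_congr rfl fun i _ => ?_
    rw [zero_mul, add_zero]
  rw [h1, ← Finset.add_sum_erase Finset.univ _ (Finset.mem_univ (0 : ZMod p)), h5,
    Finset.sum_congr rfl fun a ha => h2 a (Finset.ne_of_mem_erase ha), Finset.sum_const,
    Finset.card_erase_of_mem (Finset.mem_univ _), Finset.card_univ, ZMod.card, nsmul_eq_mul,
    Nat.cast_sub (Fact.out : p.Prime).one_lt.le]
  push_cast
  ring

theorem scl_all {r : Fin N → ZMod p} {S : Finset (Fin N)} (hS : S.Nonempty)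
    (he : Even S.card) (m : ℕ) :
    scl_T r S m = ((p : ℤ) - 1) * ∑ k ∈ Finset.range m, AS r S ∅ k := by
  induction m with
  | zero =>
    obtain ⟨i₀, hi₀⟩ := hS
    rw [Finset.sum_range_zero, mul_zero]
    unfold scl_T scl_E
    refine Finset.sum_eq_zero fun c _ => Finset.prod_eq_zero hi₀ ?_
    simp
  | succ m ih => rw [scl_step he, ih, Finset.sum_range_succ, mul_add]

theorem scl_shift {m : ℕ} (c : Fin m → ZMod p) (t : ZMod p) (L : (ZMod p)[X])
    (hL : L.natDegree < m) (x : ZMod p) :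
    scl_E (fun i => c i + t * L.coeff i) x = scl_E c x + t * L.eval x := by
  unfold scl_E
  rw [eval_eq_sum_range' hL x, Finset.mul_sum, ← Fin.sum_univ_eq_sum_range
    (fun i => t * (L.coeff i * x ^ i)) m, ← Finset.sum_add_distrib]
  refine Finset.sum_congr rfl fun i _ => ?_
  ring

theorem scl_zero (hp2 : p ≠ 2) {r : Fin N → ZMod p} (hr : Function.Injective r)
    {S : Finset (Fin N)} (hS : S.Nonempty) : scl_T r S S.card = 0 := by
  classical
  have hK : ringChar (ZMod p) ≠ 2 := by rwa [ZMod.ringChar_zmod_n]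
  obtain ⟨i₀, hi₀⟩ := hS
  have hinj : Set.InjOn r S := hr.injOn
  have hpos : 0 < S.card := Finset.card_pos.2 ⟨i₀, hi₀⟩
  have hdeg : (Lagrange.basis S r i₀).natDegree < S.card := by
    rw [natDegree_eq_of_degree_eq_some (Lagrange.degree_basis hinj hi₀)]
    omega
  generalize hL : Lagrange.basis S r i₀ = L at hdeg
  have hL1 : L.eval (r i₀) = 1 := by
    rw [← hL]
    exact Lagrange.eval_basis_self hinj hi₀
  have hL0 : ∀ j ∈ S, j ≠ i₀ → L.eval (r j) = 0 := by
    intro j hj hne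
    rw [← hL]
    exact Lagrange.eval_basis_of_ne hne.symm hj
  have h1 : ∀ t : ZMod p, ∑ c : Fin S.card → ZMod p,
      ∏ i ∈ S, quadraticChar (ZMod p) (scl_E (fun i => c i + t * L.coeff i) (r i)) =
      scl_T r S S.card := fun t =>
    van_trans L t (fun c => ∏ i ∈ S, quadraticChar (ZMod p) (scl_E c (r i)))
  have h2 : ∀ c : Fin S.card → ZMod p, ∑ t : ZMod p,
      ∏ i ∈ S, quadraticChar (ZMod p) (scl_E (fun i => c i + t * L.coeff i) (r i)) = 0 := by
    intro c
    have h3 : ∀ t : ZMod p,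
        ∏ i ∈ S, quadraticChar (ZMod p) (scl_E (fun i => c i + t * L.coeff i) (r i)) =
        quadraticChar (ZMod p) (scl_E c (r i₀) + t) *
          ∏ i ∈ S.erase i₀, quadraticChar (ZMod p) (scl_E c (r i)) := by
      intro t
      rw [← Finset.mul_prod_erase S _ hi₀, scl_shift c t L hdeg, hL1, mul_one]
      congr 1
      refine Finset.prod_congr rfl fun i hi => ?_
      rw [Finset.mem_erase] at hi
      rw [scl_shift c t L hdeg, hL0 i hi.2 hi.1, mul_zero, add_zero]
    simp only [h3]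
    rw [← Finset.sum_mul, van_sum hK, zero_mul]
  have h4 : ∑ _t : ZMod p, scl_T r S S.card = 0 := by
    rw [← Finset.sum_congr rfl fun t _ => h1 t, Finset.sum_comm]
    exact Finset.sum_eq_zero fun c _ => h2 c
  rw [Finset.sum_const, Finset.card_univ, nsmul_eq_mul, mul_eq_zero] at h4
  rcases h4 with h4 | h4
  · exact absurd h4 (by
      rw [Nat.cast_eq_zero]
      exact Fintype.card_ne_zero)
  · exact h4

theorem sum_AS_even (hp2 : p ≠ 2) {r : Fin N → ZMod p} (hr : Function.Injective r) {S : Finset (Fin N)} (hS : S.Nonempty)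
    (he : Even S.card) : ∑ k ∈ Finset.range S.card, AS r S ∅ k = 0 := by
  have h := scl_all (r := r) hS he S.card
  rw [scl_zero hp2 hr hS] at h
  have h1 : (p : ℤ) - 1 ≠ 0 := by
    have := (Fact.out : p.Prime).one_lt
    omega
  rcases mul_eq_zero.1 h.symm with h2 | h2
  · exact absurd h2 h1
  · exact h2

end Pool.Agent.H48.HC
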