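import Pool.Agent.H48.HC.PF
import Pool.Agent.H99.RM.Pat

/-! ROW STA (H48.HC): the coefficients of `Lpoly r S` are divisible by `2^|S|` if all `χ (r i - r j) = 1`.

PROOF.  In `PowerSeries ℤ`.  (a) For disjoint `T, B`: `mk (k ↦ AS r T B k) = (1 - X)^|B| * mk (k ↦ AS r T ∅ k)`: induction on `B` (`Finset.induction_on`); step: by `AS_at_zero`,
`AS_insert` (symbols `χ (r i - r j) = 1`, so the product is `1`) `AS r T (insert j B) (k+1) = AS r T B (k+1) - AS r T B k`, i.e. multiplication by `1 - X`.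
(b) For every `k`: `2^|S| ∣ ∑_{T ⊆ S} AS r T (S \ T) k`, the difference of `LS_pat r S (k+1)` and `LS_pat r S k` (`LS r T B (k+1) - LS r T B k = AS r T B k`, `Finset.sum_range_succ`).
So `∑_{T⊆S} (1 - X)^(|S|-|T|) * mk (AS r T ∅) = C (2^|S|) * W` for some `W` (`Finset.card_sdiff_of_subset`).
(c) `T = ∅`: `AS r ∅ ∅ k = p^k` (`AS_empty`, `ZMod.card`), `(1 - C p * X) * mk (p^k) = 1`.  `T ≠ ∅`: `mk (AS r T ∅) = (Aser r T : PowerSeries ℤ)` (`Aser_coeff`).
Multiply by `(1 - C p * X)`: the coercion of `Lpoly r S` is `C (2^|S|) * ((1 - C p X) W)` (`S.powerset = {∅} ∪ nes S`; `Polynomial.coe_*`).  Compare coefficients. -/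

set_option autoImplicit false

open Polynomial Pool.Agent.H99.RM

namespace Pool.Agent.H48.HC

variable {p : ℕ} [Fact p.Prime] {N : ℕ}

private theorem STA_mk {r : Fin N → ZMod p} (hr : SqD r) (T B : Finset (Fin N))
    (hd : Disjoint T B) :
    PowerSeries.mk (fun k => AS r T B k) =
      (1 - PowerSeries.X) ^ B.card * PowerSeries.mk (fun k => AS r T ∅ k) := by
  induction B using Finset.induction_on with
  | empty => simp
  | insert j B hj ih =>
    rw [Finset.disjoint_insert_right] at hd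
    have ih' := ih hd.2
    rw [Finset.card_insert_of_notMem hj, pow_succ', mul_assoc, ← ih']
    have hprod : ∏ i ∈ T, quadraticChar (ZMod p) (r i - r j) = 1 :=
      Finset.prod_eq_one fun i hi => hr i j fun h => hd.1 (h ▸ hi)
    ext n
    rw [sub_mul, one_mul, map_sub]
    cases n with
    | zero => simp [AS_at_zero]
    | succ n =>
      rw [PowerSeries.coeff_succ_X_mul, PowerSeries.coeff_mk, PowerSeries.coeff_mk,
        PowerSeries.coeff_mk, AS_insert r hr.inj hd.1 hj, hprod, one_mul]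

private theorem STA_empty (r : Fin N → ZMod p) :
    (1 - PowerSeries.C (p : ℤ) * PowerSeries.X) * PowerSeries.mk (fun k => AS r ∅ ∅ k) = 1 := by
  ext n
  rw [sub_mul, one_mul, map_sub, mul_assoc, PowerSeries.coeff_C_mul]
  cases n with
  | zero => simp [AS_at_zero]
  | succ n =>
    rw [PowerSeries.coeff_succ_X_mul, PowerSeries.coeff_mk, PowerSeries.coeff_mk, AS_empty,
      AS_empty, ZMod.card, pow_succ', sub_self, PowerSeries.coeff_one, if_neg (Nat.succ_ne_zero n)]

private theorem STA_ser (hp2 : p ≠ 2) {r : Fin N → ZMod p} (hr : SqD r) {T : Finset (Fin N)}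
    (hT : T.Nonempty) :
    PowerSeries.mk (fun k => AS r T ∅ k) = ((Aser r T : ℤ[X]) : PowerSeries ℤ) := by
  ext n
  rw [PowerSeries.coeff_mk, Polynomial.coeff_coe, Aser_coeff hp2 hr.inj hT]

private theorem STA_powerset (S : Finset (Fin N)) : S.powerset = insert ∅ (nes S) := by
  ext T
  rw [Finset.mem_insert, mem_nes, Finset.mem_powerset]
  constructor
  · intro h
    rcases T.eq_empty_or_nonempty with h1 | h1
    · exact Or.inl h1
    · exact Or.inr ⟨h, h1⟩
  · rintro (h | h)
    · rw [h]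
      exact Finset.empty_subset _
    · exact h.1

theorem Lpoly_coeff (hp2 : p ≠ 2) {r : Fin N → ZMod p} (hr : SqD r) {S : Finset (Fin N)} (hS : S.Nonempty) (k : ℕ) :
    (2 : ℤ) ^ S.card ∣ (Lpoly r S).coeff k := by
  classical
  have hdiv : ∀ k, ∃ w, ∑ T ∈ S.powerset, AS r T (S \ T) k = 2 ^ S.card * w :=
    fun k => pat_AS r S k
  choose w hw using hdiv
  have h1 : ∑ T ∈ S.powerset, PowerSeries.mk (fun k => AS r T (S \ T) k) =
      PowerSeries.C ((2 : ℤ) ^ S.card) * PowerSeries.mk w := by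
    ext k
    rw [map_sum, PowerSeries.coeff_C_mul, PowerSeries.coeff_mk, ← hw k]
    simp only [PowerSeries.coeff_mk]
  have h2 : ∑ T ∈ S.powerset, PowerSeries.mk (fun k => AS r T (S \ T) k) =
      ∑ T ∈ S.powerset, (1 - PowerSeries.X) ^ (S.card - T.card) *
        PowerSeries.mk (fun k => AS r T ∅ k) := by
    apply Finset.sum_congr rfl
    intro T hT
    rw [STA_mk hr T (S \ T) Finset.disjoint_sdiff,
      Finset.card_sdiff_of_subset (Finset.mem_powerset.1 hT)]
  have hne : (∅ : Finset (Fin N)) ∉ nes S := by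
    rw [mem_nes]
    rintro ⟨_, h⟩
    exact Finset.not_nonempty_empty h
  have h3 : ((Lpoly r S : ℤ[X]) : PowerSeries ℤ) =
      (1 - PowerSeries.C (p : ℤ) * PowerSeries.X) *
        ∑ T ∈ S.powerset, (1 - PowerSeries.X) ^ (S.card - T.card) *
        PowerSeries.mk (fun k => AS r T ∅ k) := by
    rw [STA_powerset, Finset.sum_insert hne, mul_add]
    unfold Lpoly
    rw [← coeToPowerSeries.ringHom_apply, map_add, map_sum, add_comm]
    congr 1
    · rw [Finset.card_empty, Nat.sub_zero, mul_left_comm, STA_empty, mul_one]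
      simp
    · rw [Finset.mul_sum]
      apply Finset.sum_congr rfl
      intro T hT
      rw [mem_nes] at hT
      rw [STA_ser hp2 hr hT.2]
      simp only [coeToPowerSeries.ringHom_apply, Polynomial.coe_mul, Polynomial.coe_sub,
        Polynomial.coe_one, Polynomial.coe_C, Polynomial.coe_X, Polynomial.coe_pow]
      ring
  have h4 : ((Lpoly r S : ℤ[X]) : PowerSeries ℤ) = PowerSeries.C ((2 : ℤ) ^ S.card) *
      ((1 - PowerSeries.C (p : ℤ) * PowerSeries.X) * PowerSeries.mk w) := by
    rw [h3, ← h2, h1]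
    ring
  rw [← Polynomial.coeff_coe, h4, PowerSeries.coeff_C_mul]
  exact dvd_mul_right _ _

end Pool.Agent.H48.HC
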