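import Pool.Agent.H48.HC.STA

/-! ROW STB (H48.HC): the main identity in the variable `T = 1/u`.

PROOF.  Let `s = |S| ≥ 1`.  `reflect s` is additive (`reflect_add`) and `reflect_mul f g (natDegree f ≤ F) (natDegree g ≤ G) :
reflect (F + G) (f * g) = reflect F f * reflect G g`.  `reflect 1 (1 - C p * X) = X - C p`; `reflect k ((1 - X)^k) = (X - C 1)^k` (induction on `k` with
`reflect_mul`); for `T ∈ nes S`, `t = |T| ≥ 1`: `reflect (t-1) (Aser r T) = Apoly r T = (X - C 1)^(ev t) * Pol r T` (`reflect_Aser`, `Pol_mul`, `Aser_natDegree_le`).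
`s = (1 + (s - t)) + (t - 1)`, so `reflect s ((1 - C p X) (1 - X)^(s-t) Aser r T) = (X - C p) (X - C 1)^(s-t) (X - C 1)^(ev t) Pol r T`.
All coefficients of `Lpoly r S` are divisible by `2^s` (`Lpoly_coeff`), so `Lpoly r S = C (2^s) * W` (`C_dvd_iff_dvd_coeff`) and
`reflect s (Lpoly r S) = C (2^s) * reflect s W` (`reflect_C_mul`). -/

set_option autoImplicit false

open Polynomial Pool.Agent.H99.RM

namespace Pool.Agent.H48.HC

variable {p : ℕ} [Fact p.Prime] {N : ℕ}

private theorem STB_pow (k : ℕ) : reflect k ((1 - X : ℤ[X]) ^ k) = (X - C 1) ^ k := by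
  have h1 : ∀ k : ℕ, ((1 - X : ℤ[X]) ^ k).natDegree ≤ k := by
    intro k
    refine natDegree_pow_le.trans ?_
    have h2 : (1 - X : ℤ[X]).natDegree ≤ 1 := by
      have h3 := natDegree_sub_le (1 : ℤ[X]) X
      rw [natDegree_one, natDegree_X] at h3
      exact h3.trans (by simp)
    calc k * (1 - X : ℤ[X]).natDegree ≤ k * 1 := Nat.mul_le_mul_left _ h2
      _ = k := mul_one k
  have h4 : reflect 1 (1 - X : ℤ[X]) = X - C 1 := by
    rw [reflect_sub, reflect_one_X, reflect_one]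
    simp
  induction k with
  | zero => simp
  | succ k ih =>
    rw [pow_succ, reflect_mul _ _ (h1 k) (by simpa using h1 1), ih, h4, pow_succ]

private theorem STB_lin (a : ℤ) : reflect 1 (1 - C a * X : ℤ[X]) = X - C a := by
  rw [reflect_sub, reflect_C_mul, reflect_one_X, reflect_one]
  simp

private theorem STB_sum {ι : Type*} (s : Finset ι) (f : ι → ℤ[X]) (n : ℕ) :
    reflect n (∑ i ∈ s, f i) = ∑ i ∈ s, reflect n (f i) := by
  classical
  induction s using Finset.induction_on with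
  | empty => simp
  | insert a s ha ih => rw [Finset.sum_insert ha, Finset.sum_insert ha, reflect_add, ih]

private theorem STB_deg1 (a : ℤ) : (1 - C a * X : ℤ[X]).natDegree ≤ 1 := by
  refine (natDegree_sub_le (1 : ℤ[X]) (C a * X)).trans ?_
  rw [natDegree_one]
  refine max_le (Nat.zero_le 1) ((natDegree_C_mul_le a X).trans ?_)
  rw [natDegree_X]

private theorem STB_degk (k : ℕ) : ((1 - X : ℤ[X]) ^ k).natDegree ≤ k := by
  refine natDegree_pow_le.trans ?_
  have h2 : (1 - X : ℤ[X]).natDegree ≤ 1 := by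
    simpa using STB_deg1 1
  calc k * (1 - X : ℤ[X]).natDegree ≤ k * 1 := Nat.mul_le_mul_left _ h2
    _ = k := mul_one k

theorem star (hp2 : p ≠ 2) {r : Fin N → ZMod p} (hr : SqD r) {S : Finset (Fin N)} (hS : S.Nonempty) :
    ∃ Γ : ℤ[X], (∑ T ∈ nes S, (X - C (p : ℤ)) * (X - C 1) ^ (S.card - T.card + ev T.card) * Pol r T) +
      (X - C 1) ^ S.card = C ((2 : ℤ) ^ S.card) * Γ := by
  have h0 : ∀ k, (2 : ℤ) ^ S.card ∣ (Lpoly r S).coeff k := Lpoly_coeff hp2 hr hS
  obtain ⟨W, hW⟩ := (C_dvd_iff_dvd_coeff _ _).2 h0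
  refine ⟨reflect S.card W, ?_⟩
  rw [← reflect_C_mul, ← hW]
  unfold Lpoly
  rw [reflect_add, STB_sum, STB_pow]
  congr 1
  apply Finset.sum_congr rfl
  intro T hT
  obtain ⟨hTS, hTn⟩ := mem_nes.1 hT
  have hle : T.card ≤ S.card := Finset.card_le_card hTS
  have hpos : 1 ≤ T.card := hTn.card_pos
  have hs : S.card = 1 + (S.card - T.card) + (T.card - 1) := by omega
  have hd : ((1 - C (p : ℤ) * X) * (1 - X : ℤ[X]) ^ (S.card - T.card)).natDegree ≤
      1 + (S.card - T.card) :=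
    natDegree_mul_le.trans (Nat.add_le_add (STB_deg1 _) (STB_degk _))
  have h1 : reflect S.card ((1 - C (p : ℤ) * X) * (1 - X : ℤ[X]) ^ (S.card - T.card) * Aser r T) =
      reflect (1 + (S.card - T.card))
        ((1 - C (p : ℤ) * X) * (1 - X : ℤ[X]) ^ (S.card - T.card)) *
        reflect (T.card - 1) (Aser r T) := by
    have h2 := reflect_mul _ _ hd (Aser_natDegree_le r T)
    rwa [← hs] at h2
  rw [h1, reflect_mul _ _ (STB_deg1 _) (STB_degk _), STB_lin, STB_pow, reflect_Aser r hTn,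
    ← Pol_mul hp2 hr.inj hTn, pow_add]
  ring

end Pool.Agent.H48.HC
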